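import Pool.Agent.Lib.MP_1a91b9_ntN.G.QG
import Pool.Agent.Lib.MP_1a91b9_ntP.G.Den
import Pool.Agent.Lib.MP_1a91b9_ntP.G.Dich
import Pool.Agent.Lib.MP_1a91b9_ntS.G.Fam3
import Pool.Agent.Lib.MP_1a91b9_ntW.J.TrH

/-!
# Multiquadratic extensions of `ℚ(√-3)`: the rank part of the conjecture of Birch and
Swinnerton-Dyer for the quadratic twists of the curves `y² = x³ + e³`, in all the classes modulo the
powers of `2`
-/

set_option autoImplicit false

namespace Pool.Agent.Lib.MP_1a91b9_ntN.G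

open NumberField Finset Pool.Agent.Lib.MP_1a91b9_ntT Pool.Agent.Lib.MP_1a91b9_ntH
  Pool.Agent.Lib.MP_1a91b9_ntH2
open Pool.Agent.Lib.MP_1a91b9_ntN (K3)
open Pool.Agent.Lib.MP_1a91b9_ntP (DSJG DSPG dsj_cl dsp_cl dich3)
open Pool.Agent.Lib.MP_1a91b9_ntW.J (RkZ PropGE MQG MQH Cls2 ClsN)
open Pool.Agent.Lib.MP_1a91b9_ntS.G (mod3 Q3_ne mu3 mu3_dlc mu3_ne mu3_sqf mu3_inj mu3_surj
  mu3_cls)
open Pool.Agent.Lib.MP_1a91b9_ntR (GR finite_GR)

noncomputable section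

theorem fm3 : Fm3 mu3 (fun i => decide (i.2.2.2 ≠ 0)) (fun i => (i.1 : ℕ))
    (fun i => ⟨i.2.1, i.2.2.1⟩) := by
  refine ⟨⟨mu3_ne, mu3_sqf, mu3_inj, mu3_surj⟩, ?_, ?_⟩
  · rintro ⟨j, e, c, b⟩ S
    rw [mu3_dlc]
    unfold phE
    by_cases hb : b = 0
    · simp [hb]
    · simp only [hb, ne_eq, not_false_eq_true, decide_true, if_true, if_false]
      ring
  · intro m u n hm hu
    exact mu3_cls hm hu

theorem dsj3 (n : ℕ) : DSJG (cl3 n) := by
  have h1 : Finite (GR (mod3 n)) := finite_GR (mod3 n) (Q3_ne n)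
  have h2 : Fintype (GR (mod3 n)) := Fintype.ofFinite _
  exact dsj_cl fun B ψ => dich3 n B ψ

theorem dsp3 (n : ℕ) : DSPG (cl3 n) := by
  have h1 : Finite (GR (mod3 n)) := finite_GR (mod3 n) (Q3_ne n)
  have h2 : Fintype (GR (mod3 n)) := Fintype.ofFinite _
  exact dsp_cl fun B ψ => dich3 n B ψ

/-- **All the extensions of `ℚ(√-3)` generated by square roots, all the classes.** -/
theorem mqg3 {e : K3} (he : e ≠ 0) : MQG K3 2 (Cls2 K3) (-3 * e) (3 * e ^ 2) cS3 :=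
  mqg3_of fm3 dsj3 dsp3 he

/-- **The extensions which do not contain `i`.** -/
theorem prop3_no_i {e : K3} (he : e ≠ 0) (F : Type) [Field F] [NumberField F] [Algebra K3 F]
    (hF : IntermediateField.adjoin K3 {x : F | ∃ c : K3, x ^ 2 = algebraMap K3 F c} = ⊤)
    (hi : ¬ ∃ x : F, x ^ 2 = -1) {m u : 𝓞 K3} (hmu : Cls2 K3 m u) :
    PropGE K3 m u (fun d => RkZ (⟨0, algebraMap K3 F (d * (-3 * e)), 0,
      algebraMap K3 F ((d : K3) ^ 2 * (3 * e ^ 2)), 0⟩ : WeierstrassCurve F))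
      (Da.cinf ^ Module.finrank K3 F) :=
  prop3_G1 fm3 dsj3 he F hF hi hmu

theorem cinf_prod : Da.cinf = ∏' i : ℕ, (1 + 1 / (2 : ℝ) ^ (2 * i + 1))⁻¹ := by
  simp only [Da.cinf, one_div_pow]

/-- **All the extensions generated by square roots, all the classes**, with the constant written out. -/
theorem mqg3a {e : K3} (he : e ≠ 0) : MQG K3 2 (Cls2 K3) (-3 * e) (3 * e ^ 2)
    (√((∏' i : ℕ, (1 + 1 / (2 : ℝ) ^ (2 * i + 1))⁻¹) / 2)) := by
  rw [← cinf_prod]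
  exact mqg3 he

/-- **The extensions which do not contain `i`**, with the constant written out. -/
theorem mqg3b {e : K3} (he : e ≠ 0) : MQH K3 2 (fun F _ => ClsN K3 F) (-3 * e) (3 * e ^ 2)
    (∏' i : ℕ, (1 + 1 / (2 : ℝ) ^ (2 * i + 1))⁻¹) := by
  intro F _ _ _ hF m u hmu
  rw [← cinf_prod]
  exact prop3_no_i he F hF hmu.2 hmu.1

end

end Pool.Agent.Lib.MP_1a91b9_ntN.G
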