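import Pool.Agent.Lib.MP_1a91b9_ntN.G.GTr
import Pool.Agent.Lib.MP_1a91b9_ntS.G.DenI
import Pool.Agent.Lib.MP_1a91b9_ntS.G.Inst3

/-!
# Multiquadratic extensions of `ℚ(√-3)`, part R: the density of the squarefree `d` in a class modulo
a divisor of a power of `2` for which all the twists `a d` are good
-/

set_option autoImplicit false

namespace Pool.Agent.Lib.MP_1a91b9_ntN.G

open NumberField Finset Pool.Agent.Lib.MP_1a91b9_ntT Pool.Agent.Lib.MP_1a91b9_ntH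
  Pool.Agent.Lib.MP_1a91b9_ntH2 Pool.Agent.Lib.MP_1a91b9_ntE
open Pool.Agent.Lib.MP_1a91b9_ntP (GdE DSG DSJG DSPG)
open Pool.Agent.Lib.MP_1a91b9_ntS.G (FamI LowI cndI_cls mod3 Q3 Q3_ne aG3 A_of_class mem_SR3)
open Pool.Agent.Lib.MP_1a91b9_ntR (GR cq mem_SP SR SP)

noncomputable section

/-- The multipliers of the squarefree elements of `ℤ[ω]`. -/
structure Fm3 {I : Type} [Fintype I] [DecidableEq I] (μ : I → 𝓞 K) (b : I → Bool) (jj : I → ℕ)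
    (cc : I → F4) : Prop where
  fam : FamI μ
  lab : ∀ (i : I) (S : Finset Pq), μ i * DD S = wO ^ jj i * phE (b i) (qd.A S + cc i) S
  cls : ∀ {m u : 𝓞 K} {n : ℕ}, m ∣ 2 ^ n → ¬ (4 ∣ m ∧ 4 ∣ u) →
    ∃ (i : I) (y : 𝓞 K), 2 * s3 ∣ y - 1 ∧ m ∣ μ i * y - u

section

variable {I : Type} [Fintype I] [DecidableEq I] {μ : I → 𝓞 K} {b : I → Bool} {jj : I → ℕ}
  {cc : I → F4}

/-- The classes of the primes. -/
def cl3 (n : ℕ) : Pq → GR (mod3 n) := fun q => cq (mod3 n) q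

theorem cnt_congr {P P' : Finset Pq → Prop} (i : DecidablePred P) (i' : DecidablePred P')
    (s : Finset (Finset Pq)) (h : ∀ S, P S ↔ P' S) : (s.filter P).card = (s.filter P').card := by
  congr 1
  ext S
  simp only [mem_filter, h]

open Classical in
theorem card_SR3 (n : ℕ) (g : GR (mod3 n)) (X : ℕ) : (SR (mod3 n) g X).card =
    ((Sx Pq X).filter fun S => ∑ q ∈ S, cl3 n q = g).card := by
  have e : ∀ S : Finset Pq, S ∈ (show Finset (Finset Pq) from SR (mod3 n) g X) ↔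
      S ∈ (Sx Pq X).filter fun S => ∑ q ∈ S, cl3 n q = g := fun S => by
    have h1 : S ∈ (Sx Pq X).filter (fun S => ∑ q ∈ S, cl3 n q = g) ↔
        nm S ≤ X ∧ ∑ q ∈ S, cl3 n q = g := by
      rw [mem_filter, mem_Sx]
    exact (mem_SR3 (n := n) (g := g) (X := X) (S := S)).trans h1.symm
  exact congrArg Finset.card (Finset.ext e)

open Classical in
theorem card_SP3 (n : ℕ) (g : GR (mod3 n)) (X : ℕ) (P : Finset Pq → Prop) :
    (SP (mod3 n) g X P).card =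
    ((Sx Pq X).filter fun S => ∑ q ∈ S, cl3 n q = g ∧ P S).card := by
  have e : ∀ S : Finset Pq, S ∈ (show Finset (Finset Pq) from SP (mod3 n) g X P) ↔
      S ∈ (Sx Pq X).filter fun S => ∑ q ∈ S, cl3 n q = g ∧ P S := fun S => by
    have h1 : S ∈ (Sx Pq X).filter (fun S => ∑ q ∈ S, cl3 n q = g ∧ P S) ↔
        (nm S ≤ X ∧ ∑ q ∈ S, cl3 n q = g) ∧ P S := by
      rw [mem_filter, mem_Sx, and_assoc]
    exact (mem_SP (hQ := mod3 n) (g := g) (X := X) (S := S)).trans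
      ((and_congr_left fun _ => mem_SR3 (n := n) (g := g) (X := X) (S := S)).trans h1.symm)
  exact congrArg Finset.card (Finset.ext e)

open Classical in
theorem den_core (H : Fm3 μ b jj cc) {N : ℕ} (a : Fin N → 𝓞 K) (fk : Fin N → Bool)
    (ck : Fin N → F4) (T : Fin N → Finset Pq) (s : Fin N → 𝓞 K) (hs : ∀ i, s i ≠ 0)
    (hT : ∀ i, a i = phE (fk i) (ck i) (T i) * s i ^ 2) (κ κ' : ℝ) (hκ : κ' < κ)
    (hfam : ∀ (n : ℕ) (f : Bool) (c : F4) (g : GR (mod3 n)) (ε : ℝ), 0 < ε →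
      ∃ X₀ : ℕ, ∀ X : ℕ, X₀ ≤ X →
      κ * (((Sx Pq X).filter fun S => ∑ q ∈ S, cl3 n q = g).card : ℝ) - ε * X ≤
        (((Sx Pq X).filter fun S => ∑ q ∈ S, cl3 n q = g ∧
          ∀ i, GdE (xor f (fk i)) (c + ck i) (symmDiff S (T i))).card : ℝ))
    {m u : 𝓞 K} {n : ℕ} (hm : m ∣ 2 ^ n) (hu : ¬ (4 ∣ m ∧ 4 ∣ u)) (Pr : 𝓞 K → Prop)
    (hPr : ∀ d : 𝓞 K, Squarefree d → (∀ i, ∃ (f : Bool) (c : F4) (S : Finset Pq) (t : 𝓞 K),
      t ≠ 0 ∧ a i * d = phE f c S * t ^ 2 ∧ GdE f c S) → Pr d) :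
    ∀ᶠ X : ℝ in Filter.atTop,
      κ' ≤ (Nat.card {x : 𝓞 K // Squarefree x ∧ m ∣ x - u ∧ |Algebra.norm ℤ x| ≤ X ∧ Pr x} : ℝ) /
        (Nat.card {x : 𝓞 K // Squarefree x ∧ m ∣ x - u ∧ |Algebra.norm ℤ x| ≤ X} : ℝ) := by
  have hm' : m ∣ Q3 n := hm.trans ⟨2 ^ 2 * s3, by unfold Q3; ring⟩
  refine H.fam.low (mod3 n) (Q3_ne n) (cndI_cls hm') ?_ hκ
    (Good := fun i S => ∀ k, GdE (xor (b i) (fk k)) (qd.A S + cc i + ck k) (symmDiff S (T k)))
    ?_ Pr ?_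
  · obtain ⟨i, y, h1, h2⟩ := H.cls hm hu
    exact ⟨i, y, h1, h2⟩
  · intro i g _ ε hε
    obtain ⟨X₀, h0⟩ := hfam n (b i) (aG3 n g + cc i) g ε hε
    refine ⟨X₀, fun X hX => ?_⟩
    refine le_trans (le_of_eq ?_) ((h0 X hX).trans (le_of_eq ?_))
    · rw [card_SR3]
    · rw [card_SP3]
      refine congrArg Nat.cast (cnt_congr _ _ _ fun S => and_congr_right fun h3 => ?_)
      have h5 : qd.A S = aG3 n g := A_of_class h3
      simp only [h5]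
  · intro i S _ hG
    refine hPr _ (H.fam.sqf i S) fun k => ?_
    obtain ⟨t, h3, h4⟩ := phE_mul (b i) (fk k) (qd.A S + cc i) (ck k) S (T k)
    refine ⟨xor (b i) (fk k), qd.A S + cc i + ck k, symmDiff S (T k), t * s k * wO ^ (2 * jj i),
      mul_ne_zero (mul_ne_zero h3 (hs k)) (wO_pow_ne _), ?_, hG k⟩
    have e : μ i * DD S = wO ^ jj i * phE (b i) (qd.A S + cc i) S := H.lab i S
    show a k * (μ i * DD S) = _
    rw [e, hT k, wO_pow_sq (jj i), mul_pow, mul_pow]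
    linear_combination (s k) ^ 2 * (wO ^ (2 * jj i)) ^ 2 * h4

theorem list_fin {A : List (𝓞 K)} {R : 𝓞 K → 𝓞 K → Prop} (hR : ∀ x y, R x y → R y x)
    (hpw : A.Pairwise fun x y => ¬ R x y) :
    (∀ x, x ∈ A ↔ ∃ i : Fin A.length, A.get i = x) ∧
      ∀ i i' : Fin A.length, i ≠ i' → ¬ R (A.get i) (A.get i') := by
  refine ⟨fun x => List.mem_iff_get, fun i i' hii => ?_⟩
  have h1 := List.pairwise_iff_get.1 hpw
  rcases lt_or_gt_of_ne hii with h2 | h2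
  · exact h1 i i' h2
  · exact fun h3 => h1 i' i h2 (hR _ _ h3)

/-- **No two of the `a` are equal up to sign modulo squares.** -/
theorem den_G1 (H : Fm3 μ b jj cc) (hJ : ∀ n, DSJG (cl3 n)) {A : List (𝓞 K)}
    (hA : A ≠ []) (hne : ∀ a ∈ A, a ≠ 0)
    (hpw : A.Pairwise fun a b : 𝓞 K => ¬ ∃ y : K, y ^ 2 = (a : K) * b ∨ y ^ 2 = -((a : K) * b))
    {m u : 𝓞 K} {n : ℕ} (hm : m ∣ 2 ^ n) (hu : ¬ (4 ∣ m ∧ 4 ∣ u)) (Pr : 𝓞 K → Prop)
    (hPr : ∀ d : 𝓞 K, Squarefree d → (∀ a ∈ A, ∃ (f : Bool) (c : F4) (S : Finset Pq) (t : 𝓞 K),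
      t ≠ 0 ∧ a * d = phE f c S * t ^ 2 ∧ GdE f c S) → Pr d)
    (ε : ℝ) (hε : 0 < ε) :
    ∀ᶠ X : ℝ in Filter.atTop, Da.cinf ^ A.length - ε ≤
      (Nat.card {x : 𝓞 K // Squarefree x ∧ m ∣ x - u ∧ |Algebra.norm ℤ x| ≤ X ∧ Pr x} : ℝ) /
        (Nat.card {x : 𝓞 K // Squarefree x ∧ m ∣ x - u ∧ |Algebra.norm ℤ x| ≤ X} : ℝ) := by
  classical
  obtain ⟨hmem, hdis⟩ := list_fin (R := fun a b : 𝓞 K => ∃ y : K, y ^ 2 = (a : K) * b ∨
    y ^ 2 = -((a : K) * b)) (fun x y ⟨z, hz⟩ => ⟨z, by rwa [mul_comm (y : K)]⟩) hpw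
  have h1 : ∀ i, ∃ (f : Bool) (c : F4) (T : Finset Pq) (s : 𝓞 K), s ≠ 0 ∧
      A.get i = phE f c T * s ^ 2 := fun i => exists_sfE (A.get i) (hne _ ((hmem _).2 ⟨i, rfl⟩))
  choose fk ck T s hs hT using h1
  have hTB : ∀ i, T i ⊆ univ.biUnion T := fun i => subset_biUnion_of_mem T (mem_univ i)
  have hinj : ∀ i i', fk i = fk i' → F4.tr (ck i) = F4.tr (ck i') → T i = T i' → i = i' := by
    intro i i' e1 e2 e3
    by_contra hii
    apply hdis i i' hii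
    refine ⟨((phE (fk i) (ck i') (T i) * (s i * s i') : 𝓞 K) : K), ?_⟩
    rcases tr_eq_iffE e2 with e4 | e4
    · left
      have h2 : (phE (fk i) (ck i') (T i) * (s i * s i')) ^ 2 = A.get i * A.get i' := by
        conv_rhs => rw [hT i, hT i', ← e1, e4, ← e3]
        ring
      exact_mod_cast congrArg (fun z : 𝓞 K => (z : K)) h2
    · right
      have h2 : (phE (fk i) (ck i') (T i) * (s i * s i')) ^ 2 = -(A.get i * A.get i') := by
        conv_rhs => rw [hT i, hT i', ← e1, e4, ← e3, phE_add_one]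
        ring
      exact_mod_cast congrArg (fun z : 𝓞 K => (z : K)) h2
  refine den_core H (fun i => A.get i) fk ck T s hs hT (Da.cinf ^ A.length - ε / 2)
    (Da.cinf ^ A.length - ε) (by linarith) (fun n f c g η hη => ?_) hm hu Pr fun d hd h => ?_
  · obtain ⟨X₀, h0⟩ := fam_JG (hJ n) (List.length_pos_iff.2 hA) fk ck T _ hTB hinj
      (κ₀ := Da.cinf ^ A.length - ε / 2) (by linarith) f c g η hη
    refine ⟨X₀, fun X hX => le_trans (le_of_eq ?_) ((h0 X hX).trans (le_of_eq (congrArg Nat.cast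
      (cnt_congr _ _ _ fun _ => Iff.rfl))))⟩
    rw [cnt_congr _ _ _ fun _ => Iff.rfl]
  · refine hPr d hd fun x hx => ?_
    obtain ⟨i, rfl⟩ := (hmem x).1 hx
    exact h i

/-- **The set of the `a` is closed under the multiplication by `-1` modulo squares.** -/
theorem den_G2 (H : Fm3 μ b jj cc) (hP : ∀ n, DSPG (cl3 n)) {A : List (𝓞 K)}
    (hA : A ≠ []) (hne : ∀ a ∈ A, a ≠ 0)
    (hpw : A.Pairwise fun a b : 𝓞 K => ¬ ∃ y : K, y ^ 2 = (a : K) * b)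
    (hneg : ∀ a ∈ A, ∃ c ∈ A, ∃ z : K, z ≠ 0 ∧ -(a : K) = c * z ^ 2)
    {m u : 𝓞 K} {n : ℕ} (hm : m ∣ 2 ^ n) (hu : ¬ (4 ∣ m ∧ 4 ∣ u)) (Pr : 𝓞 K → Prop)
    (hPr : ∀ d : 𝓞 K, Squarefree d → (∀ a ∈ A, ∃ (f : Bool) (c : F4) (S : Finset Pq) (t : 𝓞 K),
      t ≠ 0 ∧ a * d = phE f c S * t ^ 2 ∧ GdE f c S) → Pr d)
    (ε : ℝ) (hε : 0 < ε) :
    ∀ᶠ X : ℝ in Filter.atTop, cS3 ^ A.length - ε ≤
      (Nat.card {x : 𝓞 K // Squarefree x ∧ m ∣ x - u ∧ |Algebra.norm ℤ x| ≤ X ∧ Pr x} : ℝ) /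
        (Nat.card {x : 𝓞 K // Squarefree x ∧ m ∣ x - u ∧ |Algebra.norm ℤ x| ≤ X} : ℝ) := by
  classical
  obtain ⟨hmem, hdis⟩ := list_fin (R := fun a b : 𝓞 K => ∃ y : K, y ^ 2 = (a : K) * b)
    (fun x y ⟨z, hz⟩ => ⟨z, by rwa [mul_comm (y : K)]⟩) hpw
  have h1 : ∀ i, ∃ (f : Bool) (c : F4) (T : Finset Pq) (s : 𝓞 K), s ≠ 0 ∧
      A.get i = phE f c T * s ^ 2 := fun i => exists_sfE (A.get i) (hne _ ((hmem _).2 ⟨i, rfl⟩))
  choose fk ck T s hs hT using h1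
  have hTB : ∀ i, T i ⊆ univ.biUnion T := fun i => subset_biUnion_of_mem T (mem_univ i)
  have hsK : ∀ i, ((s i : 𝓞 K) : K) ≠ 0 := fun i => by exact_mod_cast hs i
  have hTK : ∀ i, ((A.get i : 𝓞 K) : K) =
      ((phE (fk i) (ck i) (T i) : 𝓞 K) : K) * ((s i : 𝓞 K) : K) ^ 2 := by
    intro i
    exact_mod_cast congrArg (fun z : 𝓞 K => (z : K)) (hT i)
  have hlab : LabS fk ck T := by
    refine ⟨?_, ?_⟩
    · intro i i' e1 e2 e3
      by_contra hii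
      apply hdis i i' hii
      refine ⟨((phE (fk i) (ck i) (T i) * (s i * s i') : 𝓞 K) : K), ?_⟩
      have h2 : (phE (fk i) (ck i) (T i) * (s i * s i')) ^ 2 = A.get i * A.get i' := by
        conv_rhs => rw [hT i, hT i', ← e1, ← e2, ← e3]
        ring
      exact_mod_cast congrArg (fun z : 𝓞 K => (z : K)) h2
    · intro i
      obtain ⟨x, hx, z, hz, h2⟩ := hneg (A.get i) ((hmem _).2 ⟨i, rfl⟩)
      obtain ⟨l, rfl⟩ := (hmem x).1 hx
      have h3 : ((phE (fk i) (ck i + 1) (T i) : 𝓞 K) : K) *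
          (((s i : 𝓞 K) : K) / (((s l : 𝓞 K) : K) * z)) ^ 2 =
          ((phE (fk l) (ck l) (T l) : 𝓞 K) : K) := by
        have e0 : ((phE (fk i) (ck i + 1) (T i) : 𝓞 K) : K) =
            -((phE (fk i) (ck i) (T i) : 𝓞 K) : K) := by
          rw [phE_add_one]
          push_cast
          ring
        rw [hTK i, hTK l] at h2
        rw [e0, div_pow, ← mul_div_assoc, div_eq_iff (pow_ne_zero 2 (mul_ne_zero (hsK l) hz))]
        linear_combination h2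
      obtain ⟨h4, h5, h6⟩ := phE_uniq h3
      exact ⟨l, h4.symm, h5.symm, h6.symm⟩
  refine den_core H (fun i => A.get i) fk ck T s hs hT (cS3 ^ A.length - ε / 2)
    (cS3 ^ A.length - ε) (by linarith) (fun n f c g η hη => ?_) hm hu Pr fun d hd h => ?_
  · have hle := hlab.le_PiP f
    obtain ⟨X₀, h0⟩ := fam_PG (hP n) (List.length_pos_iff.2 hA) hlab _ hTB f
      (κ₀ := cS3 ^ A.length - ε / 2) (by linarith) c g η hη
    refine ⟨X₀, fun X hX => le_trans (le_of_eq ?_) ((h0 X hX).trans (le_of_eq (congrArg Nat.cast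
      (cnt_congr _ _ _ fun _ => Iff.rfl))))⟩
    rw [cnt_congr _ _ _ fun _ => Iff.rfl]
  · refine hPr d hd fun x hx => ?_
    obtain ⟨i, rfl⟩ := (hmem x).1 hx
    exact h i

end

end

end Pool.Agent.Lib.MP_1a91b9_ntN.G
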