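import Pool.Agent.Lib.MP_1a91b9_ntN.G.RDen2
import Pool.Agent.Lib.MP_1a91b9_ntP.G.Stat

/-!
# Multiquadratic extensions of `ℚ(√-3)`, part R, the classes of a finite group: from the sets of
primes outside `B` to all the sets of primes
-/

set_option autoImplicit false

namespace Pool.Agent.Lib.MP_1a91b9_ntN.G

open NumberField Finset Pool.Agent.Lib.MP_1a91b9_ntT Pool.Agent.Lib.MP_1a91b9_ntH
  Pool.Agent.Lib.MP_1a91b9_ntH2 Pool.Agent.Lib.MP_1a91b9_ntE
open Pool.Agent.Lib.MP_1a91b9_ntP (GdE DSG DSJG DSPG)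

noncomputable section

variable {G : Type} [AddCommGroup G] {cl : Pq → G}

theorem DSG.mono {B : Finset Pq} {g : G} {κ₀ : ℝ} {Q Q' : Finset Pq → Prop}
    (h : DSG cl B g κ₀ Q) (hQ : ∀ S : Finset Pq, Disjoint S B → Q S → Q' S) :
    DSG cl B g κ₀ Q' := by
  classical
  intro ε hε
  obtain ⟨X₀, hX₀⟩ := h ε hε
  refine ⟨X₀, fun X hX => (hX₀ X hX).trans ?_⟩
  refine Nat.cast_le.2 (card_le_card fun S hS => ?_)
  simp only [mem_filter] at hS ⊢
  exact ⟨hS.1, hS.2.1, hS.2.2.1, hQ S hS.2.1 hS.2.2.2⟩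

open Classical in
theorem cnt_eqG (cl : Pq → G) (B : Finset Pq) (g : G) (Q : Finset Pq → Prop) (X : ℕ) :
    ((Sx Pq X).filter fun S => ∑ q ∈ S, cl q = g ∧ Q S).card =
      ∑ i ∈ B.powerset, ((Sx Pq (X / nm i)).filter fun S =>
        Disjoint S B ∧ ∑ q ∈ S, cl q = g - ∑ q ∈ i, cl q ∧ Q (i ∪ S)).card := by
  rw [card_eq_sum_card_fiberwise (f := fun S : Finset Pq => S ∩ B)
    (t := B.powerset) (fun S hS => ?_)]
  · refine sum_congr rfl fun i hi => ?_
    have hi1 : i ⊆ B := mem_powerset.1 hi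
    have hpos : 0 < nm i := one_le_nm i
    refine card_bij' (fun S _ => S \ B) (fun U _ => i ∪ U) ?_ ?_ ?_ ?_
    · intro S hS
      simp only [mem_filter, mem_Sx] at hS ⊢
      obtain ⟨⟨h1, h2, h3⟩, h5⟩ := hS
      have h7 : i ∪ S \ B = S := by
        rw [← h5, union_comm, sdiff_union_inter]
      have h8 : Disjoint i (S \ B) := disjoint_of_subset_left hi1 disjoint_sdiff
      refine ⟨?_, sdiff_disjoint, ?_, ?_⟩
      · rw [Nat.le_div_iff_mul_le hpos, mul_comm, ← nm_union h8, h7]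
        exact h1
      · rw [eq_sub_iff_add_eq, add_comm, ← sum_union h8, h7]
        exact h2
      · rw [h7]
        exact h3
    · intro U hU
      simp only [mem_filter, mem_Sx] at hU ⊢
      obtain ⟨h1, h2, h3, h4⟩ := hU
      have h8 : Disjoint i U := disjoint_of_subset_left hi1 h2.symm
      have e1 : (i ∪ U) ∩ B = i := by
        rw [union_inter_distrib_right, inter_eq_left.2 hi1, disjoint_iff_inter_eq_empty.1 h2,
          union_empty]
      refine ⟨⟨?_, ?_, h4⟩, e1⟩
      · rw [Nat.le_div_iff_mul_le hpos, mul_comm, ← nm_union h8] at h1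
        exact h1
      · rw [sum_union h8, h3]
        abel
    · intro S hS
      simp only [mem_filter, mem_Sx] at hS
      have h5 : S ∩ B = i := hS.2
      show i ∪ S \ B = S
      rw [← h5, union_comm, sdiff_union_inter]
    · intro U hU
      simp only [mem_filter, mem_Sx] at hU
      show (i ∪ U) \ B = U
      rw [union_sdiff_distrib, sdiff_eq_empty_iff_subset.2 hi1, empty_union,
        sdiff_eq_self_of_disjoint hU.2.1]
  · exact mem_coe.2 (mem_powerset.2 inter_subset_right)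

open Classical in
/-- **From the sets of primes outside `B` to all the sets of primes.** -/
theorem DS_of_DSG (B : Finset Pq) (g : G) {κ₀ : ℝ} {Q : Finset Pq → Prop}
    (h : ∀ B' : Finset Pq, B' ⊆ B → ∀ g' : G, DSG cl B g' κ₀ fun S => Q (B' ∪ S))
    (ε : ℝ) (hε : 0 < ε) : ∃ X₀ : ℕ, ∀ X : ℕ, X₀ ≤ X →
      κ₀ * (((Sx Pq X).filter fun S => ∑ q ∈ S, cl q = g).card : ℝ) - ε * X ≤
        (((Sx Pq X).filter fun S => ∑ q ∈ S, cl q = g ∧ Q S).card : ℝ) := by
  obtain ⟨n, hn⟩ : ∃ n : ℝ, n = ((B.powerset).card : ℝ) := ⟨_, rfl⟩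
  have hn0 : 0 < n := by
    rw [hn]
    exact_mod_cast card_pos.2 ⟨∅, empty_mem_powerset B⟩
  have h' : ∀ i : Finset Pq, ∃ X₀ : ℕ, i ∈ B.powerset → ∀ X : ℕ, X₀ ≤ X →
      κ₀ * (((Sx Pq X).filter fun S => Disjoint S B ∧
        ∑ q ∈ S, cl q = g - ∑ q ∈ i, cl q).card : ℝ) -
        ε / n * X ≤ (((Sx Pq X).filter fun S => Disjoint S B ∧
          ∑ q ∈ S, cl q = g - ∑ q ∈ i, cl q ∧ Q (i ∪ S)).card : ℝ) := by
    intro i
    by_cases hi : i ∈ B.powerset
    · obtain ⟨X₀, h0⟩ := h i (mem_powerset.1 hi) (g - ∑ q ∈ i, cl q) (ε / n) (by positivity)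
      exact ⟨X₀, fun _ X hX => h0 X hX⟩
    · exact ⟨0, fun h1 => absurd h1 hi⟩
  choose X₀ hX₀ using h'
  refine ⟨∑ i ∈ B.powerset, X₀ i * nm i, fun X hX => ?_⟩
  have hkey : ∀ i ∈ B.powerset,
      κ₀ * (((Sx Pq (X / nm i)).filter fun S => Disjoint S B ∧
        ∑ q ∈ S, cl q = g - ∑ q ∈ i, cl q).card : ℝ) - ε / n * X ≤
      (((Sx Pq (X / nm i)).filter fun S => Disjoint S B ∧
        ∑ q ∈ S, cl q = g - ∑ q ∈ i, cl q ∧ Q (i ∪ S)).card : ℝ) := by
    intro i hi
    have hpos : 0 < nm i := one_le_nm i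
    have h1 : X₀ i ≤ X / nm i := by
      rw [Nat.le_div_iff_mul_le hpos]
      exact (single_le_sum (f := fun i => X₀ i * nm i) (fun _ _ => Nat.zero_le _) hi).trans hX
    have h2 := hX₀ i hi _ h1
    have h3 : ((X / nm i : ℕ) : ℝ) ≤ X := by exact_mod_cast Nat.div_le_self _ _
    have h4 : ε / n * ((X / nm i : ℕ) : ℝ) ≤ ε / n * X :=
      mul_le_mul_of_nonneg_left h3 (by positivity)
    linarith
  have hs := sum_le_sum hkey
  rw [sum_sub_distrib, ← mul_sum, sum_const, nsmul_eq_mul, ← hn] at hs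
  have e1 := cnt_eqG cl B g (fun _ => True) X
  have e2 := cnt_eqG cl B g Q X
  simp only [and_true] at e1
  have e1' : (((Sx Pq X).filter fun S => ∑ q ∈ S, cl q = g).card : ℝ) =
      ∑ i ∈ B.powerset, (((Sx Pq (X / nm i)).filter fun S => Disjoint S B ∧
        ∑ q ∈ S, cl q = g - ∑ q ∈ i, cl q).card : ℝ) := by exact_mod_cast e1
  have e2' : (((Sx Pq X).filter fun S => ∑ q ∈ S, cl q = g ∧ Q S).card : ℝ) =
      ∑ i ∈ B.powerset, (((Sx Pq (X / nm i)).filter fun S => Disjoint S B ∧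
        ∑ q ∈ S, cl q = g - ∑ q ∈ i, cl q ∧ Q (i ∪ S)).card : ℝ) := by exact_mod_cast e2
  rw [← e1', ← e2'] at hs
  have h7 : n * (ε / n * X) = ε * X := by field_simp
  rw [h7] at hs
  exact hs

/-! ### The families of the twists -/

open Classical in
/-- The families of the twists in one class have the joint density. -/
theorem fam_JG (hJ : DSJG cl) {N : ℕ} (hN : 0 < N) (fk : Fin N → Bool) (ck : Fin N → F4)
    (T : Fin N → Finset Pq) (B : Finset Pq) (hTB : ∀ i, T i ⊆ B)
    (hinj : ∀ i i', fk i = fk i' → F4.tr (ck i) = F4.tr (ck i') → T i = T i' → i = i') {κ₀ : ℝ}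
    (hκ : κ₀ < Da.cinf ^ N) (f : Bool) (c : F4) (g : G) (ε : ℝ) (hε : 0 < ε) :
    ∃ X₀ : ℕ, ∀ X : ℕ, X₀ ≤ X →
      κ₀ * (((Sx Pq X).filter fun S => ∑ q ∈ S, cl q = g).card : ℝ) - ε * X ≤
        (((Sx Pq X).filter fun S => ∑ q ∈ S, cl q = g ∧
          ∀ i, GdE (xor f (fk i)) (c + ck i) (symmDiff S (T i))).card : ℝ) := by
  obtain ⟨X₀, h0⟩ := DS_of_DSG (cl := cl) B g
    (Q := fun S => ∀ i, GdE (xor f (fk i)) (c + ck i) (symmDiff S (T i)))
    (fun B' hB' g' =>
      DSG.mono (hJ N hN (fun i => xor f (fk i)) (fun i => c + ck i)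
        (fun i => symmDiff B' (T i)) B (fun i => by
          intro q hq
          rw [mem_symmDiff] at hq
          rcases hq with hq | hq
          · exact hB' hq.1
          · exact hTB i hq.1)
        (fun i i' h => by
          simp only [Prod.mk.injEq] at h
          exact hinj i i' (xor_cancelE h.1) (tr_cancelE h.2.1) (symmDiff_cancelE h.2.2))
        g' κ₀ hκ) fun S hS h2 i => by
          have e := symm_unionE (hTB i) hB' hS
          show GdE (xor f (fk i)) (c + ck i) (symmDiff (B' ∪ S) (T i))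
          rw [e]
          exact h2 i) ε hε
  refine ⟨X₀, fun X hX => (h0 X hX).trans (le_of_eq ?_)⟩
  congr 2
  ext S
  simp only [mem_filter]

/-- A finite family of labels which is closed under the multiplication by `-1`. -/
structure LabS {N : ℕ} (fk : Fin N → Bool) (ck : Fin N → F4) (T : Fin N → Finset Pq) : Prop where
  inj : ∀ i i', fk i = fk i' → ck i = ck i' → T i = T i' → i = i'
  sgn : ∀ i, ∃ l, fk l = fk i ∧ ck l = ck i + 1 ∧ T l = T i

variable {N : ℕ} {fk : Fin N → Bool} {ck : Fin N → F4} {T : Fin N → Finset Pq}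

theorem LabS.card (h : LabS fk ck T) : N = 2 * Fintype.card (Rp ck) := by
  classical
  choose σ h1 h2 h3 using h.sgn
  have hinv : ∀ i, σ (σ i) = i := fun i => h.inj _ _ (by rw [h1, h1]) (by rw [h2, h2, f4_c])
    (by rw [h3, h3])
  have e : {i : Fin N // ¬ (ck i).a = 0} ≃ Rp ck := by
    refine ⟨fun i => ⟨σ i.1, by rw [h2]; exact f4_b i.2⟩,
      fun i => ⟨σ i.1, by rw [h2]; exact (f4_a i.2 i.2).2.1⟩, fun i => Subtype.ext (hinv i.1),
      fun i => Subtype.ext (hinv i.1)⟩
  have h5 : Fintype.card {i : Fin N // ¬ (ck i).a = 0} = Fintype.card (Rp ck) :=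
    Fintype.card_congr e
  have h4 : Fintype.card (Fin N) = Fintype.card {i : Fin N // (ck i).a = 0} +
      Fintype.card {i : Fin N // ¬ (ck i).a = 0} := by
    rw [← Fintype.card_sum]
    exact Fintype.card_congr (Equiv.sumCompl (fun i : Fin N => (ck i).a = 0)).symm
  have h6 : Fintype.card {i : Fin N // (ck i).a = 0} = Fintype.card (Rp ck) :=
    Fintype.card_congr (Equiv.refl _)
  rw [Fintype.card_fin, h5, h6] at h4
  rw [two_mul]
  exact h4

open Classical in
/-- The families of the twists in one class have the joint density. -/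
theorem fam_PG (hP : DSPG cl) (hN : 0 < N) (h : LabS fk ck T) (B : Finset Pq)
    (hTB : ∀ i, T i ⊆ B) (f : Bool) {κ₀ : ℝ} (hκ : κ₀ < PiP fk ck f) (c : F4) (g : G) (ε : ℝ)
    (hε : 0 < ε) : ∃ X₀ : ℕ, ∀ X : ℕ, X₀ ≤ X →
      κ₀ * (((Sx Pq X).filter fun S => ∑ q ∈ S, cl q = g).card : ℝ) - ε * X ≤
        (((Sx Pq X).filter fun S => ∑ q ∈ S, cl q = g ∧
          ∀ i, GdE (xor f (fk i)) (c + ck i) (symmDiff S (T i))).card : ℝ) := by
  obtain ⟨n, hn⟩ : ∃ n, n = Fintype.card (Rp ck) := ⟨_, rfl⟩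
  have hn0 : 0 < n := by
    have h1 := h.card
    rw [← hn] at h1
    omega
  have e : Fin n ≃ Rp ck := (Fintype.equivFinOfCardEq hn.symm).symm
  have hκ' : κ₀ < ∏ i : Fin n, (if xor f (fk (e i).1) = true then Da.cinf / 2 else Da.cinf) := by
    rw [Equiv.prod_comp e (fun i : Rp ck =>
      (if xor f (fk i.1) = true then Da.cinf / 2 else Da.cinf))]
    exact hκ
  choose σ h1 h2 h3 using h.sgn
  obtain ⟨X₀, h0⟩ := DS_of_DSG (cl := cl) B g
    (Q := fun S => ∀ i, GdE (xor f (fk i)) (c + ck i) (symmDiff S (T i)))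
    (fun B' hB' g' =>
      DSG.mono (hP n hn0 (fun i => xor f (fk (e i).1)) (fun i => c + ck (e i).1)
        (fun i => symmDiff B' (T (e i).1)) B (fun i => by
          intro q hq
          rw [mem_symmDiff] at hq
          rcases hq with hq | hq
          · exact hB' hq.1
          · exact hTB _ hq.1)
        (fun i i' h4 => by
          simp only [Prod.mk.injEq] at h4
          have h5 := tr_cancelE h4.2.1
          exact e.injective (Subtype.ext (h.inj _ _ (xor_cancelE h4.1)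
            ((f4_a (e i).2 (e i').2).2.2 h5) (symmDiff_cancelE h4.2.2))))
        g' κ₀ hκ') fun S hS h4 i => by
          have e1 := symm_unionE (hTB i) hB' hS
          show GdE (xor f (fk i)) (c + ck i) (symmDiff (B' ∪ S) (T i))
          rw [e1]
          by_cases hi : (ck i).a = 0
          · have h5 := (h4 (e.symm ⟨i, hi⟩)).1
            simp only [Equiv.apply_symm_apply] at h5
            exact h5
          · have hi' : (ck (σ i)).a = 0 := by
              rw [h2]
              exact f4_b hi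
            have h5 := (h4 (e.symm ⟨σ i, hi'⟩)).2
            simp only [Equiv.apply_symm_apply] at h5
            rw [h1, h2, h3, add_assoc, f4_c] at h5
            exact h5) ε hε
  refine ⟨X₀, fun X hX => (h0 X hX).trans (le_of_eq ?_)⟩
  congr 2
  ext S
  simp only [mem_filter]

/-- The constant in all the classes for the extensions which contain `i`. -/
def cS3 : ℝ := Real.sqrt (Da.cinf / 2)

theorem cS3_pow (n : ℕ) : cS3 ^ (2 * n) = (Da.cinf / 2) ^ n := by
  rw [pow_mul, cS3, Real.sq_sqrt (by linarith [cinf_pos])]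

theorem cS3_le : cS3 ≤ Da.cinf := by
  have h := cinf_gt
  rw [cinf_form] at h
  rw [cS3]
  refine Real.sqrt_le_iff.2 ⟨cinf_pos.le, ?_⟩
  rw [pow_two]
  have h1 := mul_le_mul_of_nonneg_left h.le cinf_pos.le
  linarith

theorem LabS.le_PiP (h : LabS fk ck T) (f : Bool) : cS3 ^ N ≤ PiP fk ck f := by
  classical
  have hN : cS3 ^ N = cS3 ^ (2 * Fintype.card (Rp ck)) := by
    conv_lhs => rw [h.card]
  rw [hN, cS3_pow, PiP, ← card_univ, ← prod_const]
  refine prod_le_prod (fun _ _ => by linarith [cinf_pos]) fun i _ => ?_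
  split_ifs
  · exact le_rfl
  · linarith [cinf_pos]

end

end Pool.Agent.Lib.MP_1a91b9_ntN.G
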