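import Pool.Agent.Lib.MP_1a91b9_ntN.G.RDen2
import Pool.Agent.Lib.MP_1a91b9_ntY.Q3
import Pool.Agent.Lib.MP_1a91b9_ntE.A.TopE
import Pool.Agent.Lib.MP_1a91b9_ntE.C.MainE
import Pool.Agent.Lib.MP_1a91b9_ntH2.A.TopC
import Pool.Agent.Lib.MP_1a91b9_ntH2.C.MainC

/-!
# Multiquadratic extensions of `ℚ(√-3)`, part Q: the rank part of the conjecture of Birch and
Swinnerton-Dyer for `y² = x³ + d³` over all the multiquadratic extensions of `ℚ(√-3)`: assembly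
-/

set_option autoImplicit false

namespace Pool.Agent.Lib.MP_1a91b9_ntN.G

open NumberField IsDedekindDomain Finset WeierstrassCurve
  Pool.Agent.Lib.MP_1a91b9_ntH Pool.Agent.Lib.MP_1a91b9_ntH2
open Pool.Agent.Lib.MP_1a91b9_nuX.LG (LConcl)
open Pool.Agent.Lib.MP_1a91b9_ntN (K3)
open Pool.Agent.Lib.MP_1a91b9_ntP (GdE DSJ2)
open Pool.Agent.Lib.MP_1a91b9_ntY

noncomputable section

theorem Wb3_K3 (δ : 𝓞 K3) : Wb3 K3 1 δ = ⟨0, 0, 0, 0, (δ : K3) ^ 3⟩ := by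
  rw [Wb3, mul_one]
  rfl

theorem fm_W3 {δ : 𝓞 K3} (hδ : δ ≠ 0) :
    Pool.Agent.Lib.MP_1a91b9_nuX.PH.Fm (Wb3 K3 1 δ) := by
  rw [Wb3_eq]
  exact fm_Tdj (fm_K3 one_ne_zero) K3 hδ

theorem W3_iso {δ t : 𝓞 K3} (ht : t ≠ 0) :
    ∃ C : VariableChange K3, C • Wb3 K3 1 (δ * t ^ 2) = Wb3 K3 1 δ := by
  have ht0 : (t : K3) ≠ 0 := by exact_mod_cast ht
  refine ⟨⟨Units.mk0 (t : K3) ht0, 0, 0, 0⟩, ?_⟩
  have e : ((δ * t ^ 2 : 𝓞 K3) : K3) = (δ : K3) * (t : K3) ^ 2 := by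
    push_cast
    rfl
  rw [Wb3_K3, Wb3_K3, e]
  ext
  · simp [variableChange_a₁]
  · simp [variableChange_a₂]
  · simp [variableChange_a₃]
  · simp [variableChange_a₄]
  · simp only [variableChange_a₆, Units.val_inv_eq_inv_val, Units.val_mk0]
    field_simp
    ring

theorem W3_sq {δ t : 𝓞 K3} (ht : t ≠ 0) (hδ : δ ≠ 0)
    (h : LConcl (Wb3 K3 1 δ) ∧ Finite (Wb3 K3 1 δ).toAffine.Point) :
    LConcl (Wb3 K3 1 (δ * t ^ 2)) ∧ Finite (Wb3 K3 1 (δ * t ^ 2)).toAffine.Point := by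
  obtain ⟨C, hC⟩ := W3_iso (δ := δ) ht
  have hC' : C⁻¹ • Wb3 K3 1 δ = Wb3 K3 1 (δ * t ^ 2) := by
    rw [← hC, inv_smul_smul]
  exact ⟨lconcl_iso ellK3 (fm_W3 hδ) C⁻¹ hC' h.1, finite_iso C⁻¹ hC' h.2⟩

theorem W3_lab {f : Bool} {c : F4} {S : Finset Pq} (h : GdE f c S) :
    LConcl (Wb3 K3 1 (phE f c S)) ∧ Finite (Wb3 K3 1 (phE f c S)).toAffine.Point := by
  rw [Wb3_K3]
  cases f
  · have e : phE false c S = dlc c S := by
      unfold phE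
      simp
    rw [GdE_false] at h
    rw [e]
    exact ⟨lvalue_mainc c S h, MP_1a91b9_ntH2.C.finite_dlc c S h rfl⟩
  · have e : phE true c S = 2 * dlc c S := by
      unfold phE
      simp
    rw [GdE_true] at h
    rw [e]
    refine ⟨?_, (MP_1a91b9_ntE.C.pointsE c S h rfl).1⟩
    exact MP_1a91b9_ntE.lvalue_maine c S h

/-- **All the twists.** -/
theorem W3_good {a d : 𝓞 K3} (h : ∃ (f : Bool) (c : F4) (S : Finset Pq) (t : 𝓞 K3),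
    t ≠ 0 ∧ a * d = phE f c S * t ^ 2 ∧ GdE f c S) :
    LConcl (Wb3 K3 1 (a * d)) ∧ Finite (Wb3 K3 1 (a * d)).toAffine.Point := by
  obtain ⟨f, c, S, t, ht, h1, hG⟩ := h
  rw [h1]
  exact W3_sq ht (phE_squarefree f c S).ne_zero (W3_lab hG)

/-- The conclusion over `F`. -/
theorem W3_F {F : Type} [Field F] [NumberField F] [Algebra K3 F] {A : List (𝓞 K3)}
    (hA : MQT K3 F A) {d : 𝓞 K3} (hd : d ≠ 0)
    (h : ∀ a ∈ A, ∃ (f : Bool) (c : F4) (S : Finset Pq) (t : 𝓞 K3),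
      t ≠ 0 ∧ a * d = phE f c S * t ^ 2 ∧ GdE f c S)
    (W : WeierstrassCurve F) (hW : W = ⟨0, 0, 0, 0, (algebraMap K3 F (d : K3)) ^ 3⟩) :
    (∃ g : ℂ → ℂ, Differentiable ℂ g ∧ (∀ s : ℂ, 3 / 2 < s.re → g s = W.LSeries s) ∧
      g 1 ≠ 0) ∧ Finite W.toAffine.Point := by
  have e : W = Wb3 F 1 d := by
    rw [hW, Wb3, mul_one, map_pow]
  rw [e]
  exact chain3 one_ne_zero hA d hd fun a ha => W3_good (h a ha)

/-- The classes of `F` form a group. -/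
theorem MQT.mul_cl {K : Type} [Field K] [NumberField K] {F : Type} [Field F] [NumberField F]
    [Algebra K F] {A : List (𝓞 K)} (h : MQT K F A) : ∀ a ∈ A, ∀ b ∈ A,
    ∃ c ∈ A, ∃ z : K, z ≠ 0 ∧ (a : K) * b = c * z ^ 2 := by
  intro a ha b hb
  obtain ⟨x, hx⟩ := h.ok.sq a ha
  obtain ⟨y, hy⟩ := h.ok.sq b hb
  have ha0 : (a : K) ≠ 0 := by exact_mod_cast h.ok.ne a ha
  have hb0 : (b : K) ≠ 0 := by exact_mod_cast h.ok.ne b hb
  exact h.sq_mem _ (mul_ne_zero ha0 hb0) ⟨x * y, by rw [mul_pow, hx, hy, map_mul]⟩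

theorem MQT.neg_cl {K : Type} [Field K] [NumberField K] {F : Type} [Field F] [NumberField F]
    [Algebra K F] {A : List (𝓞 K)} (h : MQT K F A) (hi : ∃ x : F, x ^ 2 = -1) : ∀ a ∈ A,
    ∃ c ∈ A, ∃ z : K, z ≠ 0 ∧ -(a : K) = c * z ^ 2 := by
  intro a ha
  obtain ⟨x, hx⟩ := h.ok.sq a ha
  obtain ⟨y, hy⟩ := hi
  have ha0 : (a : K) ≠ 0 := by exact_mod_cast h.ok.ne a ha
  refine h.sq_mem _ (neg_ne_zero.2 ha0) ⟨x * y, ?_⟩
  rw [mul_pow, hx, hy, map_neg, mul_neg, mul_one]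

theorem MQT.pw_neg {K : Type} [Field K] [NumberField K] {F : Type} [Field F] [NumberField F]
    [Algebra K F] {A : List (𝓞 K)} (h : MQT K F A) (hi : ¬ ∃ x : F, x ^ 2 = -1) :
    A.Pairwise fun a b : 𝓞 K => ¬ ∃ y : K, y ^ 2 = (a : K) * b ∨ y ^ 2 = -((a : K) * b) := by
  refine List.Pairwise.imp_of_mem (fun {a b} ha hb h1 => ?_) h.ok.pw
  rintro ⟨y, hy | hy⟩
  · exact h1 ⟨y, hy⟩
  · obtain ⟨x1, hx1⟩ := h.ok.sq a ha
    obtain ⟨x2, hx2⟩ := h.ok.sq b hb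
    have ha0 : algebraMap K F (a : K) ≠ 0 := (_root_.map_ne_zero _).2 (by
      exact_mod_cast h.ok.ne a ha)
    have hb0 : algebraMap K F (b : K) ≠ 0 := (_root_.map_ne_zero _).2 (by
      exact_mod_cast h.ok.ne b hb)
    refine hi ⟨algebraMap K F y / (x1 * x2), ?_⟩
    rw [div_pow, mul_pow, hx1, hx2, ← map_pow, hy, map_neg, map_mul, neg_div,
      div_self (mul_ne_zero ha0 hb0)]

theorem MQT.ne_nil {K : Type} [Field K] [NumberField K] {F : Type} [Field F] [NumberField F]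
    [Algebra K F] {A : List (𝓞 K)} (h : MQT K F A) : A ≠ [] := by
  rintro rfl
  have h1 := h.ok.len
  rw [List.length_nil] at h1
  exact absurd h1.symm (Module.finrank_pos (R := K) (M := F)).ne'

/-- **The rank part over a multiquadratic extension which does not contain `i`**, in every class modulo
`m ∣ 4`. -/
theorem main_mod (hJ : DSJ2) (F : Type) [Field F] [NumberField F] [Algebra K3 F]
    (hF : IntermediateField.adjoin K3 {x : F | ∃ c : K3, x ^ 2 = algebraMap K3 F c} = ⊤)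
    (hi : ¬ ∃ x : F, x ^ 2 = -1) {m u : 𝓞 K3} (hm : m ∣ 4) (hu : ¬ (4 ∣ m ∧ 4 ∣ u))
    (ε : ℝ) (hε : 0 < ε) :
    ∀ᶠ X : ℝ in Filter.atTop,
      (∏' i : ℕ, (1 + 1 / (2 : ℝ) ^ (2 * i + 1))⁻¹) ^ Module.finrank K3 F - ε ≤
      (Nat.card {d : 𝓞 K3 // Squarefree d ∧ m ∣ d - u ∧ |Algebra.norm ℤ d| ≤ X ∧
        ∀ W : WeierstrassCurve F, W = ⟨0, 0, 0, 0, (algebraMap K3 F (d : K3)) ^ 3⟩ →
          (∃ g : ℂ → ℂ, Differentiable ℂ g ∧ (∀ s : ℂ, 3 / 2 < s.re → g s = W.LSeries s) ∧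
            g 1 ≠ 0) ∧ Finite W.toAffine.Point} : ℝ) /
        (Nat.card {d : 𝓞 K3 // Squarefree d ∧ m ∣ d - u ∧ |Algebra.norm ℤ d| ≤ X} : ℝ) := by
  obtain ⟨A, hA⟩ := MQT.exists_of hF
  rw [← hA.ok.len]
  exact den_all hJ hA.ne_nil hA.ok.ne (hA.pw_neg hi) hm hu _
    (fun d hd h W hW => W3_F hA hd.ne_zero h W hW) ε hε

theorem not4 : ¬ (4 : 𝓞 K3) ∣ 1 := by
  intro h
  have h2 : (2 : 𝓞 K3) ∣ 4 := ⟨2, by norm_num⟩
  exact MP_1a91b9_ntE.DensA.prime_two.not_isUnit (isUnit_of_dvd_one (h2.trans h))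

/-- **The rank part over every multiquadratic extension of `ℚ(√-3)`.** -/
theorem main_one (hJ : DSJ2) (hP : DSP2) (F : Type) [Field F] [NumberField F] [Algebra K3 F]
    (hF : IntermediateField.adjoin K3 {x : F | ∃ c : K3, x ^ 2 = algebraMap K3 F c} = ⊤)
    (ε : ℝ) (hε : 0 < ε) :
    ∀ᶠ X : ℝ in Filter.atTop,
      (∏' i : ℕ, (1 + 1 / (2 : ℝ) ^ (2 * i + 1))⁻¹) ^ Module.finrank K3 F - ε ≤
      (Nat.card {d : 𝓞 K3 // Squarefree d ∧ |Algebra.norm ℤ d| ≤ X ∧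
        ∀ W : WeierstrassCurve F, W = ⟨0, 0, 0, 0, (algebraMap K3 F (d : K3)) ^ 3⟩ →
          (∃ g : ℂ → ℂ, Differentiable ℂ g ∧ (∀ s : ℂ, 3 / 2 < s.re → g s = W.LSeries s) ∧
            g 1 ≠ 0) ∧ Finite W.toAffine.Point} : ℝ) /
        (Nat.card {d : 𝓞 K3 // Squarefree d ∧ |Algebra.norm ℤ d| ≤ X} : ℝ) := by
  by_cases hi : ∃ x : F, x ^ 2 = -1
  · obtain ⟨A, hA⟩ := MQT.exists_of hF
    rw [← hA.ok.len]
    exact den_all2 hP hA.ne_nil hA.ok.ne hA.ok.pw hA.mul_cl (hA.neg_cl hi) _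
      (fun d hd h W hW => W3_F hA hd.ne_zero h W hW) ε hε
  · have h1 := main_mod hJ F hF hi (m := 1) (u := 0) (one_dvd _)
      (fun h => not4 h.1) ε hε
    have e1 : ∀ (P : 𝓞 K3 → Prop) (X : ℝ), Nat.card {d : 𝓞 K3 // Squarefree d ∧ (1 : 𝓞 K3) ∣ d - 0 ∧
        |Algebra.norm ℤ d| ≤ X ∧ P d} = Nat.card {d : 𝓞 K3 // Squarefree d ∧
        |Algebra.norm ℤ d| ≤ X ∧ P d} := by
      intro P X
      refine Nat.card_congr (Equiv.subtypeEquivRight fun d => ?_)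
      simp
    have e2 : ∀ X : ℝ, Nat.card {d : 𝓞 K3 // Squarefree d ∧ (1 : 𝓞 K3) ∣ d - 0 ∧
        |Algebra.norm ℤ d| ≤ X} = Nat.card {d : 𝓞 K3 // Squarefree d ∧
        |Algebra.norm ℤ d| ≤ X} := by
      intro X
      refine Nat.card_congr (Equiv.subtypeEquivRight fun d => ?_)
      simp
    filter_upwards [h1] with X hX
    rw [e2] at hX
    rw [e1 (fun d => ∀ W : WeierstrassCurve F,
        W = ⟨0, 0, 0, 0, (algebraMap K3 F (d : K3)) ^ 3⟩ →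
          (∃ g : ℂ → ℂ, Differentiable ℂ g ∧ (∀ s : ℂ, 3 / 2 < s.re → g s = W.LSeries s) ∧
            g 1 ≠ 0) ∧ Finite W.toAffine.Point)] at hX
    exact hX

end

end Pool.Agent.Lib.MP_1a91b9_ntN.G
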