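import Pool.Agent.Lib.MP_1a91b9_ntN.G.GDen
import Pool.Agent.Lib.MP_1a91b9_ntN.G.QMain
import Pool.Agent.Lib.MP_1a91b9_ntW.J.TwK

/-!
# Multiquadratic extensions of `ℚ(√-3)`, part Q: the quadratic twists of all the curves
`y² = x³ + e³`, in all the classes modulo powers of `2`
-/

set_option autoImplicit false

namespace Pool.Agent.Lib.MP_1a91b9_ntN.G

open NumberField IsDedekindDomain Finset WeierstrassCurve
  Pool.Agent.Lib.MP_1a91b9_ntH Pool.Agent.Lib.MP_1a91b9_ntH2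
open Pool.Agent.Lib.MP_1a91b9_nuX.LG (LConcl)
open Pool.Agent.Lib.MP_1a91b9_ntN (K3)
open Pool.Agent.Lib.MP_1a91b9_ntP (GdE DSJG DSPG)
open Pool.Agent.Lib.MP_1a91b9_ntY
open Pool.Agent.Lib.MP_1a91b9_ntW.J (RkZ RkZ.vc PropGE MQG Cls2)
open Pool.Agent.Lib.MP_1a91b9_nuI (HasJ)
open Pool.Agent.Lib.MP_1a91b9_ntS.G (mod3)
open Pool.Agent.Lib.MP_1a91b9_ntR (cq)

noncomputable section

/-- a nonzero element is an algebraic integer up to squares -/
theorem exists_sq_mul3 (e : K3) : ∃ (δ ν : 𝓞 K3), ν ≠ 0 ∧ (δ : K3) = e * (ν : K3) ^ 2 := by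
  obtain ⟨⟨x, y⟩, hxy⟩ := IsLocalization.surj (nonZeroDivisors (𝓞 K3)) e
  refine ⟨x * y, y, nonZeroDivisors.ne_zero y.2, ?_⟩
  have h1 : ((x * (y : 𝓞 K3) : 𝓞 K3) : K3) = (x : K3) * ((y : 𝓞 K3) : K3) := by
    push_cast
    rfl
  have h : e * (((y : 𝓞 K3) : 𝓞 K3) : K3) = ((x : 𝓞 K3) : K3) := hxy
  rw [h1, ← h]
  ring

theorem hasJ0 {F : Type*} [Field F] (E : F) :
    HasJ (⟨0, -3 * E, 0, 3 * E ^ 2, 0⟩ : WeierstrassCurve F) 0 := by
  unfold HasJ WeierstrassCurve.c₄ WeierstrassCurve.b₂ WeierstrassCurve.b₄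
  push_cast
  ring

theorem vc3 {F : Type*} [Field F] {E D t : F} (ht : t ≠ 0) (hD : D = E * t ^ 2) :
    (⟨(Units.mk0 t ht)⁻¹, E, 0, 0⟩ : VariableChange F) •
      (⟨0, -3 * E, 0, 3 * E ^ 2, 0⟩ : WeierstrassCurve F) = ⟨0, 0, 0, 0, D ^ 3⟩ := by
  subst hD
  ext
  · simp [variableChange_a₁]
  · simp [variableChange_a₂]
  · simp [variableChange_a₃]
  · simp only [variableChange_a₄, inv_inv, Units.val_mk0]
    ring
  · simp only [variableChange_a₆, inv_inv, Units.val_mk0]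
    ring

/-- The conclusion for the twists of `y² = x³ + e³`. -/
theorem rk3 {F : Type} [Field F] [NumberField F] [Algebra K3 F] {A : List (𝓞 K3)}
    (hA : MQT K3 F A) {e : K3} {δ ν : 𝓞 K3} (hν : ν ≠ 0) (hδ : δ ≠ 0)
    (hδν : (δ : K3) = e * (ν : K3) ^ 2) {d : 𝓞 K3} (hd : d ≠ 0)
    (h : ∀ a ∈ A.map (δ * ·), ∃ (f : Bool) (c : F4) (S : Finset Pq) (t : 𝓞 K3),
      t ≠ 0 ∧ a * d = phE f c S * t ^ 2 ∧ GdE f c S) :
    RkZ (⟨0, algebraMap K3 F (d * (-3 * e)), 0, algebraMap K3 F ((d : K3) ^ 2 * (3 * e ^ 2)), 0⟩ :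
      WeierstrassCurve F) := by
  have h1 : LConcl (Wb3 F 1 (δ * d)) ∧ Finite (Wb3 F 1 (δ * d)).toAffine.Point := by
    refine chain3 one_ne_zero hA (δ * d) (mul_ne_zero hδ hd) fun a ha => ?_
    have h2 := W3_good (h (δ * a) (List.mem_map.2 ⟨a, ha, rfl⟩))
    have e1 : a * (δ * d) = δ * a * d := by ring
    rw [e1]
    exact h2
  have hν0 : algebraMap K3 F (ν : K3) ≠ 0 := (_root_.map_ne_zero _).2 (by exact_mod_cast hν)
  have e1 : ((δ * d : 𝓞 K3) : K3) = (δ : K3) * d := by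
    push_cast
    rfl
  have e2 : Wb3 F 1 (δ * d) = ⟨0, 0, 0, 0, (algebraMap K3 F ((δ * d : 𝓞 K3) : K3)) ^ 3⟩ := by
    rw [Wb3, mul_one, map_pow]
  have e3 : (⟨0, algebraMap K3 F (d * (-3 * e)), 0, algebraMap K3 F ((d : K3) ^ 2 * (3 * e ^ 2)),
      0⟩ : WeierstrassCurve F) = ⟨0, -3 * algebraMap K3 F (d * e), 0,
        3 * (algebraMap K3 F (d * e)) ^ 2, 0⟩ := by
    have h2 : algebraMap K3 F (d * (-3 * e)) = -3 * algebraMap K3 F (d * e) := by
      rw [← map_ofNat (algebraMap K3 F) 3, ← map_neg, ← map_mul]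
      congr 1
      ring
    have h3 : algebraMap K3 F ((d : K3) ^ 2 * (3 * e ^ 2)) =
        3 * (algebraMap K3 F (d * e)) ^ 2 := by
      rw [← map_ofNat (algebraMap K3 F) 3, ← map_pow (algebraMap K3 F), ← map_mul (algebraMap K3 F)]
      congr 1
      ring
    rw [h2, h3]
  have hD : algebraMap K3 F ((δ * d : 𝓞 K3) : K3) =
      algebraMap K3 F (d * e) * (algebraMap K3 F (ν : K3)) ^ 2 := by
    rw [← map_pow (algebraMap K3 F), ← map_mul (algebraMap K3 F), e1, hδν]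
    congr 1
    ring
  have h4 := RkZ.vc (hasJ0 (algebraMap K3 F (d * e)))
    (⟨(Units.mk0 _ hν0)⁻¹, algebraMap K3 F (d * e), 0, 0⟩ : VariableChange F)
  rw [vc3 hν0 hD, ← e2] at h4
  rw [e3]
  exact h4.1 h1

theorem not_four {m u : 𝓞 K3} (h : ∀ p : 𝓞 K3, Prime p → ¬ (p ^ 2 ∣ m ∧ p ^ 2 ∣ u)) :
    ¬ (4 ∣ m ∧ 4 ∣ u) := by
  have e : (4 : 𝓞 K3) = 2 ^ 2 := by norm_num
  rw [e]
  exact h 2 MP_1a91b9_ntE.DensA.prime_two

section

variable {I : Type} [Fintype I] [DecidableEq I] {μ : I → 𝓞 K3} {b : I → Bool} {jj : I → ℕ}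
  {cc : I → F4}

/-- **The extensions which do not contain `i`.** -/
theorem prop3_G1 (H : Fm3 μ b jj cc) (hJ : ∀ n, DSJG (cl3 n)) {e : K3}
    (he : e ≠ 0) (F : Type) [Field F] [NumberField F] [Algebra K3 F]
    (hF : IntermediateField.adjoin K3 {x : F | ∃ c : K3, x ^ 2 = algebraMap K3 F c} = ⊤)
    (hi : ¬ ∃ x : F, x ^ 2 = -1) {m u : 𝓞 K3} (hmu : Cls2 K3 m u) :
    PropGE K3 m u (fun d => RkZ (⟨0, algebraMap K3 F (d * (-3 * e)), 0,
      algebraMap K3 F ((d : K3) ^ 2 * (3 * e ^ 2)), 0⟩ : WeierstrassCurve F))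
      (Da.cinf ^ Module.finrank K3 F) := by
  intro ε hε
  obtain ⟨A, hA⟩ := MQT.exists_of hF
  obtain ⟨δ, ν, hν, hδν⟩ := exists_sq_mul3 e
  have hδK : (δ : K3) ≠ 0 := by
    rw [hδν]
    exact mul_ne_zero he (pow_ne_zero 2 (by exact_mod_cast hν))
  have hδ : δ ≠ 0 := by exact_mod_cast hδK
  obtain ⟨⟨n, hm⟩, hu'⟩ := hmu
  have hlen : (A.map (δ * ·)).length = Module.finrank K3 F := by
    rw [List.length_map, hA.ok.len]
  have hne : A.map (δ * ·) ≠ [] := fun h0 => hA.ne_nil (List.map_eq_nil_iff.1 h0)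
  rw [← hlen]
  refine den_G1 H hJ hne (fun a ha => ?_) ?_ hm (not_four hu') _
    (fun d hd h => rk3 hA hν hδ hδν hd.ne_zero h) ε hε
  · obtain ⟨x, hx, rfl⟩ := List.mem_map.1 ha
    exact mul_ne_zero hδ (hA.ok.ne x hx)
  · rw [List.pairwise_map]
    refine (hA.pw_neg hi).imp fun {x y} h => ?_
    have e1 : ((δ * x : 𝓞 K3) : K3) * ((δ * y : 𝓞 K3) : K3) =
        (δ : K3) ^ 2 * ((x : K3) * (y : K3)) := by
      push_cast
      ring
    rintro ⟨z, hz | hz⟩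
    · refine h ⟨z / (δ : K3), Or.inl ?_⟩
      rw [div_pow, hz, e1]
      field_simp
    · refine h ⟨z / (δ : K3), Or.inr ?_⟩
      rw [div_pow, hz, e1]
      field_simp

/-- **All the extensions generated by square roots, all the classes.** -/
theorem mqg3_of (H : Fm3 μ b jj cc) (hJ : ∀ n, DSJG (cl3 n))
    (hP : ∀ n, DSPG (cl3 n)) {e : K3} (he : e ≠ 0) :
    MQG K3 2 (Cls2 K3) (-3 * e) (3 * e ^ 2) cS3 := by
  intro F _ _ _ hF m u hmu
  by_cases hi : ∃ x : F, x ^ 2 = -1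
  · intro ε hε
    obtain ⟨A, hA⟩ := MQT.exists_of hF
    obtain ⟨δ, ν, hν, hδν⟩ := exists_sq_mul3 e
    have hδK : (δ : K3) ≠ 0 := by
      rw [hδν]
      exact mul_ne_zero he (pow_ne_zero 2 (by exact_mod_cast hν))
    have hδ : δ ≠ 0 := by exact_mod_cast hδK
    obtain ⟨⟨n, hm⟩, hu'⟩ := hmu
    have hlen : (A.map (δ * ·)).length = Module.finrank K3 F := by
      rw [List.length_map, hA.ok.len]
    have hne : A.map (δ * ·) ≠ [] := fun h0 => hA.ne_nil (List.map_eq_nil_iff.1 h0)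
    rw [← hlen]
    refine den_G2 H hP hne (fun a ha => ?_) ?_ (fun a ha => ?_) hm (not_four hu') _
      (fun d hd h => rk3 hA hν hδ hδν hd.ne_zero h) ε hε
    · obtain ⟨x, hx, rfl⟩ := List.mem_map.1 ha
      exact mul_ne_zero hδ (hA.ok.ne x hx)
    · rw [List.pairwise_map]
      refine hA.ok.pw.imp fun {x y} h => ?_
      rintro ⟨z, hz⟩
      refine h ⟨z / (δ : K3), ?_⟩
      have e1 : ((δ * x : 𝓞 K3) : K3) * ((δ * y : 𝓞 K3) : K3) =
          (δ : K3) ^ 2 * ((x : K3) * (y : K3)) := by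
        push_cast
        ring
      rw [div_pow, hz, e1]
      field_simp
    · obtain ⟨x, hx, rfl⟩ := List.mem_map.1 ha
      obtain ⟨y, hy, z, hz, h1⟩ := hA.neg_cl hi x hx
      refine ⟨δ * y, List.mem_map.2 ⟨y, hy, rfl⟩, z, hz, ?_⟩
      have e1 : ((δ * x : 𝓞 K3) : K3) = (δ : K3) * x := by
        push_cast
        rfl
      have e2 : ((δ * y : 𝓞 K3) : K3) = (δ : K3) * y := by
        push_cast
        rfl
      rw [e1, e2]
      linear_combination (δ : K3) * h1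
  · intro ε hε
    filter_upwards [prop3_G1 H hJ he F hF hi hmu ε hε] with X hX
    refine le_trans ?_ hX
    have h1 : cS3 ^ Module.finrank K3 F ≤ Da.cinf ^ Module.finrank K3 F :=
      pow_le_pow_left₀ (Real.sqrt_nonneg _) cS3_le _
    linarith

end

end

end Pool.Agent.Lib.MP_1a91b9_ntN.G
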