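import Pool.Agent.Lib.MP_1a91b9_ntN.G.RDen

/-!
# Multiquadratic extensions of `ℚ(√-3)`, part R: the density among all the squarefree elements from
different densities among the odd and the even ones
-/

set_option autoImplicit false

namespace Pool.Agent.Lib.MP_1a91b9_ntN.G

open NumberField Finset Pool.Agent.Lib.MP_1a91b9_ntT Pool.Agent.Lib.MP_1a91b9_ntH
  Pool.Agent.Lib.MP_1a91b9_ntH2 Pool.Agent.Lib.MP_1a91b9_ntE
open DensA DensC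

noncomputable section

theorem mono_cnt {c : F4} {X Y : ℝ} (h : X ≤ Y) :
    Nat.card {x : 𝓞 K // Cl c x ∧ (Nz x : ℝ) ≤ X} ≤ Nat.card {x : 𝓞 K // Cl c x ∧ (Nz x : ℝ) ≤ Y} := by
  have h1 := DensA.finite_le Y
  have : Finite {x : 𝓞 K // Cl c x ∧ (Nz x : ℝ) ≤ Y} :=
    Finite.of_injective (β := {x : 𝓞 K // (Nz x : ℝ) ≤ Y})
      (fun x => ⟨x.1, x.2.2⟩) (fun a b h => Subtype.ext (Subtype.mk.inj h))
  exact Nat.card_le_card_of_injective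
    (fun x : {x : 𝓞 K // Cl c x ∧ (Nz x : ℝ) ≤ X} =>
      (⟨x.1, x.2.1, x.2.2.trans h⟩ : {x : 𝓞 K // Cl c x ∧ (Nz x : ℝ) ≤ Y}))
    (fun a b h => Subtype.ext (Subtype.mk.inj h))

theorem sum_idx (F : Idx → ℝ) : ∑ i : Idx, F i =
    ∑ x : Fin 3 × F4, F (false, x) + ∑ x : Fin 3 × F4, F (true, x) := by
  rw [Fintype.sum_prod_type, Fintype.sum_bool, add_comm]

theorem avg_ineq {κ' x y a b : ℝ} (h1 : κ' ≤ x) (h2 : 2 * κ' ≤ x + y) (hb : 0 ≤ b) (hab : b ≤ a) :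
    κ' * (a + b) ≤ x * a + y * b := by
  rcases le_total κ' y with h | h
  · have h3 := mul_le_mul_of_nonneg_right h1 (hb.trans hab)
    have h4 := mul_le_mul_of_nonneg_right h hb
    linarith
  · have h3 : (κ' - y) * b ≤ (κ' - y) * a := mul_le_mul_of_nonneg_left hab (by linarith)
    have h4 : (κ' - y) * a ≤ (x - κ') * a :=
      mul_le_mul_of_nonneg_right (by linarith) (hb.trans hab)
    linarith

/-- The density among all the squarefree elements, if it is `κ 1` for the odd and `κ 2` for the even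
ones. -/
theorem density_avg (κ1 κ2 κ' : ℝ) (hκ1 : κ' < κ1) (hκ2 : 2 * κ' < κ1 + κ2)
    (G1 G2 : F4 → Finset Pq → Prop) [∀ c, DecidablePred (G1 c)] [∀ c, DecidablePred (G2 c)]
    (h1 : ∀ c d : F4, ∀ ε : ℝ, 0 < ε → ∃ X₀ : ℕ, ∀ X : ℕ, X₀ ≤ X →
      κ1 * (((Sx Pq X).filter fun S => qd.A S = d).card : ℝ) - ε * X ≤
        (((Sx Pq X).filter fun S => qd.A S = d ∧ G1 c S).card : ℝ))
    (h2 : ∀ c d : F4, ∀ ε : ℝ, 0 < ε → ∃ X₀ : ℕ, ∀ X : ℕ, X₀ ≤ X →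
      κ2 * (((Sx Pq X).filter fun S => qd.A S = d).card : ℝ) - ε * X ≤
        (((Sx Pq X).filter fun S => qd.A S = d ∧ G2 c S).card : ℝ))
    (Pr : 𝓞 K → Prop)
    (hPr1 : ∀ (j : ℕ) (c : F4) (S : Finset Pq), G1 c S → Pr (wO ^ j * dlc c S))
    (hPr2 : ∀ (j : ℕ) (c : F4) (S : Finset Pq), G2 c S → Pr (2 * (wO ^ j * dlc c S))) :
    ∀ᶠ X : ℝ in Filter.atTop,
      κ' ≤ (Nat.card {δ : 𝓞 K // Squarefree δ ∧ |Algebra.norm ℤ δ| ≤ X ∧ Pr δ} : ℝ) /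
        (Nat.card {δ : 𝓞 K // Squarefree δ ∧ |Algebra.norm ℤ δ| ≤ X} : ℝ) := by
  classical
  obtain ⟨η, hη0, hη1, hη2⟩ : ∃ η : ℝ, 0 < η ∧ κ' ≤ κ1 - η ∧ 2 * κ' ≤ (κ1 - η) + (κ2 - η) := by
    refine ⟨min (κ1 - κ') ((κ1 + κ2 - 2 * κ') / 2), lt_min (by linarith) (by linarith), ?_, ?_⟩
    · have := min_le_left (κ1 - κ') ((κ1 + κ2 - 2 * κ') / 2)
      linarith
    · have := min_le_right (κ1 - κ') ((κ1 + κ2 - 2 * κ') / 2)
      linarith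
  -- the single families
  have hi : ∀ i : Idx, ∀ᶠ X : ℝ in Filter.atTop,
      0 < Nat.card {δ : 𝓞 K // Cl i.2.2 δ ∧ (Nz δ : ℝ) ≤ Y i X} ∧
      ((if i.1 then κ2 else κ1) - η) * (Nat.card {δ : 𝓞 K // Cl i.2.2 δ ∧ (Nz δ : ℝ) ≤ Y i X} : ℝ) ≤
        (Nat.card {δ : 𝓞 K // Cl i.2.2 δ ∧ (Nz δ : ℝ) ≤ Y i X ∧ Pr (ph i δ)} : ℝ) := by
    intro i
    refine (tendsto_Y i).eventually (p := fun Z : ℝ =>
      0 < Nat.card {δ : 𝓞 K // Cl i.2.2 δ ∧ (Nz δ : ℝ) ≤ Z} ∧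
      ((if i.1 then κ2 else κ1) - η) * (Nat.card {δ : 𝓞 K // Cl i.2.2 δ ∧ (Nz δ : ℝ) ≤ Z} : ℝ) ≤
        (Nat.card {δ : 𝓞 K // Cl i.2.2 δ ∧ (Nz δ : ℝ) ≤ Z ∧ Pr (ph i δ)} : ℝ)) ?_
    obtain ⟨b, j, c⟩ := i
    cases b
    · refine DensA.main c (G1 c) κ1 (κ1 - η) (by linarith) (h1 c)
        (fun x => Pr (ph (false, j, c) x)) ?_
      intro S hS
      have := hPr1 j c S hS
      unfold ph
      simpa using this
    · refine DensA.main c (G2 c) κ2 (κ2 - η) (by linarith) (h2 c)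
        (fun x => Pr (ph (true, j, c) x)) ?_
      intro S hS
      have := hPr2 j c S hS
      unfold ph
      simpa using this
  have hall := Filter.eventually_all.2 hi
  filter_upwards [hall, Filter.eventually_ge_atTop 0] with X hX hX0
  simp only [abs_norm_le]
  have e1 := card_all X Pr
  have e2 := card_all X (fun _ => True)
  simp only [and_true] at e2
  rw [e1, e2]
  push_cast
  have hpos : (0 : ℝ) < ∑ i : Idx, (Nat.card {x : 𝓞 K // Cl i.2.2 x ∧ (Nz x : ℝ) ≤ Y i X} : ℝ) :=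
    sum_pos (fun i _ => by exact_mod_cast (hX i).1) univ_nonempty
  rw [le_div_iff₀ hpos]
  refine le_trans ?_ (sum_le_sum fun i _ => (hX i).2)
  rw [sum_idx, sum_idx]
  simp only [Bool.false_eq_true, if_false, if_true]
  rw [← mul_sum, ← mul_sum]
  have hab : ∑ x : Fin 3 × F4, (Nat.card {y : 𝓞 K // Cl x.2 y ∧ (Nz y : ℝ) ≤ Y (true, x) X} : ℝ) ≤
      ∑ x : Fin 3 × F4, (Nat.card {y : 𝓞 K // Cl x.2 y ∧ (Nz y : ℝ) ≤ Y (false, x) X} : ℝ) := by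
    refine sum_le_sum fun x _ => ?_
    have h3 : Y (true, x) X ≤ Y (false, x) X := by
      have h4 : Y (false, x) X = X := by simp [Y]
      rw [h4]
      exact Y_le _ hX0
    exact_mod_cast mono_cnt h3
  have hb0 : (0 : ℝ) ≤ ∑ x : Fin 3 × F4,
      (Nat.card {y : 𝓞 K // Cl x.2 y ∧ (Nz y : ℝ) ≤ Y (true, x) X} : ℝ) :=
    sum_nonneg fun _ _ => Nat.cast_nonneg _
  exact avg_ineq hη1 hη2 hb0 hab

end

end Pool.Agent.Lib.MP_1a91b9_ntN.G
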