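import Pool.Agent.Lib.MP_1a91b9_ntP.Defs

/-!
# Multiquadratic extensions of `ℚ(√-3)`, part R: definitions

`phE f c S` is the squarefree element `dlc c S` or `2 * dlc c S`. `DSP2` : the joint density of the
sets of primes which are good for several pairs of labels `a`, `-a` (part D).
-/

set_option autoImplicit false

namespace Pool.Agent.Lib.MP_1a91b9_ntN.G

open NumberField Finset Pool.Agent.Lib.MP_1a91b9_ntT Pool.Agent.Lib.MP_1a91b9_ntH
  Pool.Agent.Lib.MP_1a91b9_ntH2 Pool.Agent.Lib.MP_1a91b9_ntE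
open Pool.Agent.Lib.MP_1a91b9_ntP (GdE DSJ2)

noncomputable section

/-- The squarefree elements up to powers of `w`. -/
def phE (f : Bool) (c : F4) (S : Finset Pq) : 𝓞 K := (if f then 2 else 1) * dlc c S

theorem GdE_false {c : F4} {S : Finset Pq} : GdE false c S ↔ ((tw c qd).M S).det ≠ 0 := by
  unfold GdE
  simp

theorem GdE_true {c : F4} {S : Finset Pq} : GdE true c S ↔ (qE.NE c S).det ≠ 0 := by
  unfold GdE
  simp

open Classical in
/-- The sets of primes outside `B` in the class `d` with the property `Q` have lower density at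
least `κ₀` among the sets of primes outside `B` in the class `d`. -/
def DSE (B : Finset Pq) (d : F4) (κ₀ : ℝ) (Q : Finset Pq → Prop) : Prop :=
  ∀ ε : ℝ, 0 < ε → ∃ X₀ : ℕ, ∀ X : ℕ, X₀ ≤ X →
    κ₀ * (((Sx Pq X).filter fun S => Disjoint S B ∧ qd.A S = d).card : ℝ) - ε * X ≤
      (((Sx Pq X).filter fun S => Disjoint S B ∧ qd.A S = d ∧ Q S).card : ℝ)

/-- The joint density of the good sets of primes for pairs of labels (part D). -/
def DSP2 : Prop := ∀ N : ℕ, 0 < N → ∀ (f : Fin N → Bool) (c : Fin N → F4) (T : Fin N → Finset Pq)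
  (B : Finset Pq), (∀ i, T i ⊆ B) → Function.Injective (fun i => (f i, F4.tr (c i), T i)) →
  ∀ (α : F4) (κ₀ : ℝ), κ₀ < ∏ i, (if f i = true then Da.cinf / 2 else Da.cinf) →
  DSE B α κ₀ fun S => ∀ i, GdE (f i) (c i) (S ∪ T i) ∧ GdE (f i) (c i + 1) (S ∪ T i)

theorem dse_of (hJ : DSJ2) {N : ℕ} (hN : 0 < N) {f : Fin N → Bool} {c : Fin N → F4}
    {T : Fin N → Finset Pq} {B : Finset Pq} (hT : ∀ i, T i ⊆ B)
    (hinj : Function.Injective (fun i => (f i, F4.tr (c i), T i))) (α : F4) {κ₀ : ℝ}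
    (hκ : κ₀ < Da.cinf ^ N) : DSE B α κ₀ fun S => ∀ i, GdE (f i) (c i) (S ∪ T i) := by
  intro ε hε
  obtain ⟨X₀, h0⟩ := hJ N hN f c T B hT hinj α κ₀ hκ ε hε
  refine ⟨X₀, fun X hX => (h0 X hX).trans (le_of_eq ?_)⟩
  congr 2
  ext S
  simp only [mem_filter]

theorem DSE.mono {B : Finset Pq} {d : F4} {κ₀ : ℝ} {Q Q' : Finset Pq → Prop}
    (h : DSE B d κ₀ Q) (hQ : ∀ S : Finset Pq, Disjoint S B → qd.A S = d → Q S → Q' S) :
    DSE B d κ₀ Q' := by
  classical
  intro ε hε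
  obtain ⟨X₀, hX₀⟩ := h ε hε
  refine ⟨X₀, fun X hX => (hX₀ X hX).trans ?_⟩
  refine Nat.cast_le.2 (card_le_card fun S hS => ?_)
  simp only [mem_filter] at hS ⊢
  exact ⟨hS.1, hS.2.1, hS.2.2.1, hQ S hS.2.1 hS.2.2.1 hS.2.2.2⟩

open Classical in
/-- From finer classes to the classes in `F4`. -/
theorem DSE.of_fine {G : Type*} [AddCommGroup G] [Fintype G] (pr : G →+ F4)
    (cl : Pq → G) (hcl : ∀ q, pr (cl q) = qd.a q) {B : Finset Pq} {d : F4} {κ₀ : ℝ}
    {Q : Finset Pq → Prop}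
    (h : ∀ g : G, ∀ ε : ℝ, 0 < ε → ∃ X₀ : ℕ, ∀ X : ℕ, X₀ ≤ X →
      κ₀ * (((Sx Pq X).filter fun S => Disjoint S B ∧ ∑ q ∈ S, cl q = g).card : ℝ) - ε * X ≤
        (((Sx Pq X).filter fun S => Disjoint S B ∧ ∑ q ∈ S, cl q = g ∧ Q S).card : ℝ)) :
    DSE B d κ₀ Q := by
  intro ε hε
  have hG : (0 : ℝ) < Fintype.card G := by exact_mod_cast Fintype.card_pos
  choose X₀ hX₀ using fun g : G => h g (ε / Fintype.card G) (by positivity)
  refine ⟨∑ g, X₀ g, fun X hX => ?_⟩
  have hA : ∀ S : Finset Pq, qd.A S = pr (∑ q ∈ S, cl q) := by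
    intro S
    rw [map_sum, Dat.A]
    exact sum_congr rfl fun q _ => (hcl q).symm
  have hsum : ∀ R : Finset Pq → Prop, ((Sx Pq X).filter fun S => Disjoint S B ∧ qd.A S = d ∧ R S).card =
      ∑ g ∈ univ.filter (fun g => pr g = d),
        ((Sx Pq X).filter fun S => Disjoint S B ∧ ∑ q ∈ S, cl q = g ∧ R S).card := by
    intro R
    rw [card_eq_sum_card_fiberwise (f := fun S : Finset Pq => ∑ q ∈ S, cl q)
      (t := univ.filter fun g => pr g = d)]
    · refine sum_congr rfl fun g hg => ?_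
      congr 1
      ext S
      simp only [mem_filter, mem_univ, true_and] at hg ⊢
      constructor
      · rintro ⟨⟨h1, h2, -, h4⟩, h5⟩
        exact ⟨h1, h2, h5, h4⟩
      · rintro ⟨h1, h2, h5, h4⟩
        exact ⟨⟨h1, h2, by rw [hA, h5, hg], h4⟩, h5⟩
    · intro S hS
      rw [mem_coe, mem_filter] at hS
      rw [mem_coe, mem_filter]
      exact ⟨mem_univ _, by rw [← hA]; exact hS.2.2.1⟩
  have h1 := hsum (fun _ => True)
  simp only [and_true] at h1
  have h2 := hsum Q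
  have h3 : ∑ g ∈ univ.filter (fun g => pr g = d),
      (κ₀ * (((Sx Pq X).filter fun S => Disjoint S B ∧ ∑ q ∈ S, cl q = g).card : ℝ) -
        ε / Fintype.card G * X) ≤ ∑ g ∈ univ.filter (fun g => pr g = d),
      (((Sx Pq X).filter fun S => Disjoint S B ∧ ∑ q ∈ S, cl q = g ∧ Q S).card : ℝ) := by
    refine sum_le_sum fun g _ => hX₀ g X ((single_le_sum (fun _ _ => Nat.zero_le _)
      (mem_univ g)).trans hX)
  rw [sum_sub_distrib, ← mul_sum, sum_const, nsmul_eq_mul] at h3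
  have h4 : ((univ.filter fun g : G => pr g = d).card : ℝ) * (ε / Fintype.card G * X) ≤ ε * X := by
    have h5 : ((univ.filter fun g : G => pr g = d).card : ℝ) ≤ Fintype.card G := by
      exact_mod_cast card_le_univ _
    have h6 : (Fintype.card G : ℝ) * (ε / Fintype.card G * X) = ε * X := by field_simp
    rw [← h6]
    exact mul_le_mul_of_nonneg_right h5 (by positivity)
  have h1' : (((Sx Pq X).filter fun S => Disjoint S B ∧ qd.A S = d).card : ℝ) =
      ∑ g ∈ univ.filter (fun g => pr g = d),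
        (((Sx Pq X).filter fun S => Disjoint S B ∧ ∑ q ∈ S, cl q = g).card : ℝ) := by
    exact_mod_cast h1
  have h2' : (((Sx Pq X).filter fun S => Disjoint S B ∧ qd.A S = d ∧ Q S).card : ℝ) =
      ∑ g ∈ univ.filter (fun g => pr g = d),
        (((Sx Pq X).filter fun S => Disjoint S B ∧ ∑ q ∈ S, cl q = g ∧ Q S).card : ℝ) := by
    exact_mod_cast h2
  rw [h1', h2']
  linarith

end

end Pool.Agent.Lib.MP_1a91b9_ntN.G
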