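import Pool.Agent.Lib.MP_1a91b9_ntN.G.RSqf

/-!
# Multiquadratic extensions of `ℚ(√-3)`, part R: the density of the squarefree `d` for which all the
twists `a d` are good, if no two of the `a` are equal up to sign modulo squares
-/

set_option autoImplicit false

namespace Pool.Agent.Lib.MP_1a91b9_ntN.G

open NumberField Finset Pool.Agent.Lib.MP_1a91b9_ntT Pool.Agent.Lib.MP_1a91b9_ntH
  Pool.Agent.Lib.MP_1a91b9_ntH2 Pool.Agent.Lib.MP_1a91b9_ntE
open Pool.Agent.Lib.MP_1a91b9_ntP (GdE DSJ2)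

noncomputable section

theorem tr_cancelE {a b c : F4} (h : F4.tr (a + b) = F4.tr (a + c)) : F4.tr b = F4.tr c := by
  revert a b c
  decide

theorem tr_eq_iffE {b c : F4} (h : F4.tr b = F4.tr c) : b = c ∨ b = c + 1 := by
  revert b c
  decide

theorem xor_cancelE {a b c : Bool} (h : xor a b = xor a c) : b = c := by
  revert a b c
  decide

open Classical in
/-- The families of the twists in one class have the joint density. -/
theorem fam_J (hJ : DSJ2) {N : ℕ} (hN : 0 < N) (fk : Fin N → Bool) (ck : Fin N → F4)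
    (T : Fin N → Finset Pq) (B : Finset Pq) (hTB : ∀ i, T i ⊆ B)
    (hinj : ∀ i i', fk i = fk i' → F4.tr (ck i) = F4.tr (ck i') → T i = T i' → i = i') {κ₀ : ℝ}
    (hκ : κ₀ < Da.cinf ^ N) (f : Bool) (c d : F4) (ε : ℝ) (hε : 0 < ε) :
    ∃ X₀ : ℕ, ∀ X : ℕ, X₀ ≤ X →
      κ₀ * (((Sx Pq X).filter fun S => qd.A S = d).card : ℝ) - ε * X ≤
        (((Sx Pq X).filter fun S => qd.A S = d ∧
          ∀ i, GdE (xor f (fk i)) (c + ck i) (symmDiff S (T i))).card : ℝ) := by
  obtain ⟨X₀, h0⟩ := DS_of_DSE B d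
    (Q := fun S => ∀ i, GdE (xor f (fk i)) (c + ck i) (symmDiff S (T i)))
    (fun B' hB' d' =>
      (dse_of hJ hN (f := fun i => xor f (fk i)) (c := fun i => c + ck i)
        (T := fun i => symmDiff B' (T i)) (B := B) (fun i => by
          intro q hq
          rw [mem_symmDiff] at hq
          rcases hq with hq | hq
          · exact hB' hq.1
          · exact hTB i hq.1)
        (fun i i' h => by
          simp only [Prod.mk.injEq] at h
          exact hinj i i' (xor_cancelE h.1) (tr_cancelE h.2.1) (symmDiff_cancelE h.2.2))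
        d' hκ).mono fun S hS _ h2 i => by
          have e := symm_unionE (hTB i) hB' hS
          show GdE (xor f (fk i)) (c + ck i) (symmDiff (B' ∪ S) (T i))
          rw [e]
          exact h2 i) ε hε
  refine ⟨X₀, fun X hX => (h0 X hX).trans (le_of_eq ?_)⟩
  congr 2
  ext S
  simp only [mem_filter]

/-- **The density of the squarefree `d` for which all the twists by the elements of `A` are good.** -/
theorem den_all (hJ : DSJ2) {A : List (𝓞 K)} (hA : A ≠ []) (hne : ∀ a ∈ A, a ≠ 0)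
    (hpw : A.Pairwise fun a b : 𝓞 K => ¬ ∃ y : K, y ^ 2 = (a : K) * b ∨ y ^ 2 = -((a : K) * b))
    {m u : 𝓞 K} (hm : m ∣ 4) (hu : ¬ (4 ∣ m ∧ 4 ∣ u))
    (Pr : 𝓞 K → Prop)
    (hPr : ∀ d : 𝓞 K, Squarefree d → (∀ a ∈ A, ∃ (f : Bool) (c : F4) (S : Finset Pq) (t : 𝓞 K),
      t ≠ 0 ∧ a * d = phE f c S * t ^ 2 ∧ GdE f c S) → Pr d)
    (ε : ℝ) (hε : 0 < ε) :
    ∀ᶠ X : ℝ in Filter.atTop,
      (∏' i : ℕ, (1 + 1 / (2 : ℝ) ^ (2 * i + 1))⁻¹) ^ A.length - ε ≤
      (Nat.card {x : 𝓞 K // Squarefree x ∧ m ∣ x - u ∧ |Algebra.norm ℤ x| ≤ X ∧ Pr x} : ℝ) /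
        (Nat.card {x : 𝓞 K // Squarefree x ∧ m ∣ x - u ∧ |Algebra.norm ℤ x| ≤ X} : ℝ) := by
  classical
  obtain ⟨N, hN⟩ : ∃ N, N = A.length := ⟨_, rfl⟩
  have hN0 : 0 < N := by
    rw [hN]
    exact List.length_pos_iff.2 hA
  obtain ⟨a, ha⟩ : ∃ a : Fin N → 𝓞 K, (∀ x, x ∈ A ↔ ∃ i, a i = x) ∧
      ∀ i i', i ≠ i' → ¬ ∃ y : K, y ^ 2 = (a i : K) * a i' ∨ y ^ 2 = -((a i : K) * a i') := by
    subst hN
    refine ⟨A.get, fun x => ?_, fun i i' hii => ?_⟩
    · rw [List.mem_iff_get]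
    · have h1 := List.pairwise_iff_get.1 hpw
      rcases lt_or_gt_of_ne hii with h2 | h2
      · exact h1 i i' h2
      · rintro ⟨y, hy⟩
        rw [mul_comm] at hy
        exact h1 i' i h2 ⟨y, hy⟩
  obtain ⟨hmem, hdis⟩ := ha
  have h1 : ∀ i, ∃ (f : Bool) (c : F4) (T : Finset Pq) (s : 𝓞 K), s ≠ 0 ∧
      a i = phE f c T * s ^ 2 := fun i => exists_sfE (a i) (hne _ ((hmem _).2 ⟨i, rfl⟩))
  choose fk ck T s hs hT using h1
  obtain ⟨B, hB⟩ : ∃ B : Finset Pq, B = univ.biUnion T := ⟨_, rfl⟩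
  have hTB : ∀ i, T i ⊆ B := fun i => by
    rw [hB]
    exact subset_biUnion_of_mem T (mem_univ i)
  have hinj : ∀ i i', fk i = fk i' → F4.tr (ck i) = F4.tr (ck i') → T i = T i' → i = i' := by
    intro i i' e1 e2 e3
    by_contra hii
    apply hdis i i' hii
    refine ⟨((phE (fk i) (ck i') (T i) * (s i * s i') : 𝓞 K) : K), ?_⟩
    rcases tr_eq_iffE e2 with e4 | e4
    · left
      have h2 : (phE (fk i) (ck i') (T i) * (s i * s i')) ^ 2 = a i * a i' := by
        conv_rhs => rw [hT i, hT i', ← e1, e4, ← e3]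
        ring
      exact_mod_cast congrArg (fun z : 𝓞 K => (z : K)) h2
    · right
      have h2 : (phE (fk i) (ck i') (T i) * (s i * s i')) ^ 2 = -(a i * a i') := by
        conv_rhs => rw [hT i, hT i', ← e1, e4, ← e3, phE_add_one]
        ring
      exact_mod_cast congrArg (fun z : 𝓞 K => (z : K)) h2
  rw [cinf_form, ← hN]
  refine density_mod4 (fun δ => m ∣ δ - u) (fun x y hxy => ?_) ?_ (Da.cinf ^ N - ε / 2)
    (Da.cinf ^ N - ε) (by linarith)
    (fun c S => ∀ i, GdE (xor false (fk i)) (c + ck i) (symmDiff S (T i)))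
    (fun c S => ∀ i, GdE (xor true (fk i)) (c + ck i) (symmDiff S (T i)))
    (fun c d η hη => ?_) (fun c d η hη => ?_) Pr (fun j c S h => ?_) (fun j c S h => ?_)
  · have h4 := hm.trans hxy
    constructor
    · intro h
      have e : y - u = (x - u) - (x - y) := by ring
      rw [e]
      exact dvd_sub h h4
    · intro h
      have e : x - u = (y - u) + (x - y) := by ring
      rw [e]
      exact dvd_add h h4
  · by_cases h : (4 : 𝓞 K) ∣ u
    · refine ⟨u + m, ⟨1, by ring⟩, fun h1 => hu ⟨?_, h⟩⟩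
      exact (dvd_add_right h).1 h1
    · exact ⟨u, by rw [sub_self]; exact dvd_zero _, h⟩
  · obtain ⟨X₀, h0⟩ := fam_J hJ hN0 fk ck T B hTB hinj (κ₀ := Da.cinf ^ N - ε / 2) (by linarith)
      false c d η hη
    refine ⟨X₀, fun X hX => (h0 X hX).trans (le_of_eq ?_)⟩
    congr 2
  · obtain ⟨X₀, h0⟩ := fam_J hJ hN0 fk ck T B hTB hinj (κ₀ := Da.cinf ^ N - ε / 2) (by linarith)
      true c d η hη
    refine ⟨X₀, fun X hX => (h0 X hX).trans (le_of_eq ?_)⟩
    congr 2
  · have hsq : Squarefree (wO ^ j * dlc c S) :=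
      squarefree_unit_mul (isUnit_wO.pow j) (dlc_squarefree c S)
    refine hPr _ hsq fun b hb => ?_
    obtain ⟨i, rfl⟩ := (hmem b).1 hb
    obtain ⟨t, h3, h4⟩ := phE_mul false (fk i) c (ck i) S (T i)
    refine ⟨xor false (fk i), c + ck i, symmDiff S (T i), t * s i * wO ^ (2 * j),
      mul_ne_zero (mul_ne_zero h3 (hs i)) (wO_pow_ne _), ?_, h i⟩
    have e : phE false c S = dlc c S := by
      unfold phE
      simp
    rw [hT i, wO_pow_sq j, ← e, mul_pow, mul_pow]
    linear_combination (s i) ^ 2 * (wO ^ (2 * j)) ^ 2 * h4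
  · have hsq : Squarefree (2 * (wO ^ j * dlc c S)) := by
      have h5 := phE_squarefree true c S
      have e6 : 2 * (wO ^ j * dlc c S) = wO ^ j * phE true c S := by
        unfold phE
        simp
        ring
      rw [e6]
      exact squarefree_unit_mul (isUnit_wO.pow j) h5
    refine hPr _ hsq fun b hb => ?_
    obtain ⟨i, rfl⟩ := (hmem b).1 hb
    obtain ⟨t, h3, h4⟩ := phE_mul true (fk i) c (ck i) S (T i)
    refine ⟨xor true (fk i), c + ck i, symmDiff S (T i), t * s i * wO ^ (2 * j),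
      mul_ne_zero (mul_ne_zero h3 (hs i)) (wO_pow_ne _), ?_, h i⟩
    have e : phE true c S = 2 * dlc c S := by
      unfold phE
      simp
    rw [hT i, wO_pow_sq j, mul_pow, mul_pow]
    rw [e] at h4
    linear_combination (s i) ^ 2 * (wO ^ (2 * j)) ^ 2 * h4

end

end Pool.Agent.Lib.MP_1a91b9_ntN.G
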