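import Pool.Agent.Lib.MP_1a91b9_ntN.G.RPair

/-!
# Multiquadratic extensions of `ℚ(√-3)`, part R: the density of the squarefree `d` for which all the
twists `a d` are good, if the set of the `a` is a group containing `-1` modulo squares
-/

set_option autoImplicit false

namespace Pool.Agent.Lib.MP_1a91b9_ntN.G

open NumberField Finset Pool.Agent.Lib.MP_1a91b9_ntT Pool.Agent.Lib.MP_1a91b9_ntH
  Pool.Agent.Lib.MP_1a91b9_ntH2 Pool.Agent.Lib.MP_1a91b9_ntE
open Pool.Agent.Lib.MP_1a91b9_ntP (GdE DSJ2)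

noncomputable section

/-- A finite family of labels which is closed under the multiplication, and under the
multiplication by `-1`. -/
structure LabG {N : ℕ} (fk : Fin N → Bool) (ck : Fin N → F4) (T : Fin N → Finset Pq) : Prop where
  inj : ∀ i i', fk i = fk i' → ck i = ck i' → T i = T i' → i = i'
  sgn : ∀ i, ∃ l, fk l = fk i ∧ ck l = ck i + 1 ∧ T l = T i
  mul : ∀ i j, ∃ l, fk l = xor (fk i) (fk j) ∧ ck l = ck i + ck j ∧ T l = symmDiff (T i) (T j)

section

variable {N : ℕ} {fk : Fin N → Bool} {ck : Fin N → F4} {T : Fin N → Finset Pq}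

/-- The representatives modulo `-1`. -/
abbrev Rp (ck : Fin N → F4) : Type := {i : Fin N // (ck i).a = 0}

theorem f4_a {c c' : F4} (h : c.a = 0) (h' : c'.a = 0) : (c + c').a = 0 ∧ (c + 1).a ≠ 0 ∧
    (F4.tr c = F4.tr c' → c = c') := by
  revert c c'
  decide

theorem f4_b {c : F4} (h : c.a ≠ 0) : (c + 1).a = 0 := by
  revert c
  decide

theorem f4_c (c : F4) : c + 1 + 1 = c := by
  revert c
  decide

theorem LabG.card (h : LabG fk ck T) : N = 2 * Fintype.card (Rp ck) := by
  classical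
  choose σ h1 h2 h3 using h.sgn
  have hinv : ∀ i, σ (σ i) = i := fun i => h.inj _ _ (by rw [h1, h1]) (by rw [h2, h2, f4_c])
    (by rw [h3, h3])
  have e : {i : Fin N // ¬ (ck i).a = 0} ≃ Rp ck := by
    refine ⟨fun i => ⟨σ i.1, by rw [h2]; exact f4_b i.2⟩,
      fun i => ⟨σ i.1, by rw [h2]; exact (f4_a i.2 i.2).2.1⟩, fun i => Subtype.ext (hinv i.1),
      fun i => Subtype.ext (hinv i.1)⟩
  have h5 : Fintype.card {i : Fin N // ¬ (ck i).a = 0} = Fintype.card (Rp ck) :=
    Fintype.card_congr e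
  have h4 : Fintype.card (Fin N) = Fintype.card {i : Fin N // (ck i).a = 0} +
      Fintype.card {i : Fin N // ¬ (ck i).a = 0} := by
    rw [← Fintype.card_sum]
    exact Fintype.card_congr (Equiv.sumCompl (fun i : Fin N => (ck i).a = 0)).symm
  have h6 : Fintype.card {i : Fin N // (ck i).a = 0} = Fintype.card (Rp ck) :=
    Fintype.card_congr (Equiv.refl _)
  rw [Fintype.card_fin, h5, h6] at h4
  rw [two_mul]
  exact h4

theorem LabG.odd_le (h : LabG fk ck T) :
    (univ.filter fun i : Rp ck => fk i.1 = true).card ≤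
      (univ.filter fun i : Rp ck => fk i.1 = false).card := by
  classical
  by_cases hj : ∃ j : Rp ck, fk j.1 = true
  · obtain ⟨j, hj⟩ := hj
    choose μ h1 h2 h3 using fun i => h.mul i j.1
    refine card_le_card_of_injOn (fun i => ⟨μ i.1, by rw [h2]; exact (f4_a i.2 j.2).1⟩) ?_ ?_
    · intro i hi
      rw [mem_coe, mem_filter] at hi ⊢
      refine ⟨mem_univ _, ?_⟩
      show fk (μ i.1) = false
      rw [h1, hi.2, hj]
      rfl
    · intro i _ i' _ hii
      have e : μ i.1 = μ i'.1 := congrArg Subtype.val hii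
      refine Subtype.ext (h.inj _ _ ?_ ?_ ?_)
      · have e1 := h1 i.1
        rw [e, h1 i'.1] at e1
        exact (xor_cancelE (a := fk j.1) (by rw [Bool.xor_comm, e1, Bool.xor_comm])).symm
      · have e1 := h2 i.1
        rw [e, h2 i'.1] at e1
        exact (add_right_cancel e1).symm
      · have e1 := h3 i.1
        rw [e, h3 i'.1] at e1
        exact (symmDiff_cancelE (S := T j.1) (by rw [symmDiff_comm, e1, symmDiff_comm])).symm
  · have h1 : (univ.filter fun i : Rp ck => fk i.1 = true) = ∅ := by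
      rw [Finset.filter_eq_empty_iff]
      intro i _ hi
      exact hj ⟨i, hi⟩
    rw [h1, card_empty]
    exact Nat.zero_le _

/-- The product of the densities of the pairs. -/
def PiP (fk : Fin N → Bool) (ck : Fin N → F4) (f : Bool) : ℝ :=
  ∏ i : Rp ck, (if xor f (fk i.1) = true then Da.cinf / 2 else Da.cinf)

theorem LabG.bounds (h : LabG fk ck T) :
    Da.cinf ^ N ≤ PiP fk ck false ∧ 2 * Da.cinf ^ N ≤ PiP fk ck false + PiP fk ck true := by
  classical
  have hc1 : Da.cinf ≤ 1 := cinf_le.trans (by norm_num)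
  have hcard : Fintype.card (Rp ck) = (univ.filter fun i : Rp ck => fk i.1 = false).card +
      (univ.filter fun i : Rp ck => fk i.1 = true).card := by
    have h1 := card_filter_add_card_filter_not (s := (univ : Finset (Rp ck)))
      (fun i => fk i.1 = false)
    have h2 : (univ.filter fun i : Rp ck => ¬ fk i.1 = false) =
        univ.filter fun i : Rp ck => fk i.1 = true := by
      refine filter_congr fun i _ => ?_
      cases fk i.1 <;> simp
    rw [h2, card_univ] at h1
    exact h1.symm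
  have e1 : PiP fk ck false = Da.cinf ^ Fintype.card (Rp ck) *
      (1 / 2) ^ (univ.filter fun i : Rp ck => fk i.1 = true).card := by
    rw [PiP, prod_half]
    congr 3
    refine filter_congr fun i _ => ?_
    cases fk i.1 <;> simp
  have e2 : PiP fk ck true = Da.cinf ^ Fintype.card (Rp ck) *
      (1 / 2) ^ (univ.filter fun i : Rp ck => fk i.1 = false).card := by
    rw [PiP, prod_half]
    congr 3
    refine filter_congr fun i _ => ?_
    cases fk i.1 <;> simp
  have hb := two_bound cinf_pos hc1 cinf_sq_le h.odd_le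
  have hN : Da.cinf ^ N = Da.cinf ^ (2 * Fintype.card (Rp ck)) := by
    conv_lhs => rw [h.card]
  rw [← hcard] at hb
  rw [hN, e1, e2]
  exact hb

open Classical in
/-- The families of the twists in one class have the joint density. -/
theorem fam_P (hP : DSP2) (hN : 0 < N) (h : LabG fk ck T) (B : Finset Pq) (hTB : ∀ i, T i ⊆ B)
    (f : Bool) {κ₀ : ℝ} (hκ : κ₀ < PiP fk ck f) (c d : F4) (ε : ℝ) (hε : 0 < ε) :
    ∃ X₀ : ℕ, ∀ X : ℕ, X₀ ≤ X →
      κ₀ * (((Sx Pq X).filter fun S => qd.A S = d).card : ℝ) - ε * X ≤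
        (((Sx Pq X).filter fun S => qd.A S = d ∧
          ∀ i, GdE (xor f (fk i)) (c + ck i) (symmDiff S (T i))).card : ℝ) := by
  obtain ⟨n, hn⟩ : ∃ n, n = Fintype.card (Rp ck) := ⟨_, rfl⟩
  have hn0 : 0 < n := by
    have h1 := h.card
    rw [← hn] at h1
    omega
  have e : Fin n ≃ Rp ck := (Fintype.equivFinOfCardEq hn.symm).symm
  have hκ' : κ₀ < ∏ i : Fin n, (if xor f (fk (e i).1) = true then Da.cinf / 2 else Da.cinf) := by
    rw [Equiv.prod_comp e (fun i : Rp ck =>
      (if xor f (fk i.1) = true then Da.cinf / 2 else Da.cinf))]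
    exact hκ
  choose σ h1 h2 h3 using h.sgn
  obtain ⟨X₀, h0⟩ := DS_of_DSE B d
    (Q := fun S => ∀ i, GdE (xor f (fk i)) (c + ck i) (symmDiff S (T i)))
    (fun B' hB' d' =>
      (hP n hn0 (fun i => xor f (fk (e i).1)) (fun i => c + ck (e i).1)
        (fun i => symmDiff B' (T (e i).1)) B (fun i => by
          intro q hq
          rw [mem_symmDiff] at hq
          rcases hq with hq | hq
          · exact hB' hq.1
          · exact hTB _ hq.1)
        (fun i i' h4 => by
          simp only [Prod.mk.injEq] at h4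
          have h5 := tr_cancelE h4.2.1
          exact e.injective (Subtype.ext (h.inj _ _ (xor_cancelE h4.1)
            ((f4_a (e i).2 (e i').2).2.2 h5) (symmDiff_cancelE h4.2.2))))
        d' κ₀ hκ').mono fun S hS _ h4 i => by
          have e1 := symm_unionE (hTB i) hB' hS
          show GdE (xor f (fk i)) (c + ck i) (symmDiff (B' ∪ S) (T i))
          rw [e1]
          by_cases hi : (ck i).a = 0
          · have h5 := (h4 (e.symm ⟨i, hi⟩)).1
            simp only [Equiv.apply_symm_apply] at h5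
            exact h5
          · have hi' : (ck (σ i)).a = 0 := by
              rw [h2]
              exact f4_b hi
            have h5 := (h4 (e.symm ⟨σ i, hi'⟩)).2
            simp only [Equiv.apply_symm_apply] at h5
            rw [h1, h2, h3, add_assoc, f4_c] at h5
            exact h5) ε hε
  refine ⟨X₀, fun X hX => (h0 X hX).trans (le_of_eq ?_)⟩
  congr 2
  ext S
  simp only [mem_filter]

end

/-- **The density of the squarefree `d` for which all the twists by the elements of `A` are good**, if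
`A` is a group containing `-1` modulo squares. -/
theorem den_all2 (hP : DSP2) {A : List (𝓞 K)} (hA : A ≠ []) (hne : ∀ a ∈ A, a ≠ 0)
    (hpw : A.Pairwise fun a b : 𝓞 K => ¬ ∃ y : K, y ^ 2 = (a : K) * b)
    (hmul : ∀ a ∈ A, ∀ b ∈ A, ∃ c ∈ A, ∃ z : K, z ≠ 0 ∧ (a : K) * b = c * z ^ 2)
    (hneg : ∀ a ∈ A, ∃ c ∈ A, ∃ z : K, z ≠ 0 ∧ -(a : K) = c * z ^ 2)
    (Pr : 𝓞 K → Prop)
    (hPr : ∀ d : 𝓞 K, Squarefree d → (∀ a ∈ A, ∃ (f : Bool) (c : F4) (S : Finset Pq) (t : 𝓞 K),
      t ≠ 0 ∧ a * d = phE f c S * t ^ 2 ∧ GdE f c S) → Pr d)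
    (ε : ℝ) (hε : 0 < ε) :
    ∀ᶠ X : ℝ in Filter.atTop,
      (∏' i : ℕ, (1 + 1 / (2 : ℝ) ^ (2 * i + 1))⁻¹) ^ A.length - ε ≤
      (Nat.card {x : 𝓞 K // Squarefree x ∧ |Algebra.norm ℤ x| ≤ X ∧ Pr x} : ℝ) /
        (Nat.card {x : 𝓞 K // Squarefree x ∧ |Algebra.norm ℤ x| ≤ X} : ℝ) := by
  classical
  obtain ⟨N, hN⟩ : ∃ N, N = A.length := ⟨_, rfl⟩
  have hN0 : 0 < N := by
    rw [hN]
    exact List.length_pos_iff.2 hA
  obtain ⟨a, ha⟩ : ∃ a : Fin N → 𝓞 K, (∀ x, x ∈ A ↔ ∃ i, a i = x) ∧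
      ∀ i i', i ≠ i' → ¬ ∃ y : K, y ^ 2 = (a i : K) * a i' := by
    subst hN
    refine ⟨A.get, fun x => ?_, fun i i' hii => ?_⟩
    · rw [List.mem_iff_get]
    · have h1 := List.pairwise_iff_get.1 hpw
      rcases lt_or_gt_of_ne hii with h2 | h2
      · exact h1 i i' h2
      · rintro ⟨y, hy⟩
        rw [mul_comm] at hy
        exact h1 i' i h2 ⟨y, hy⟩
  obtain ⟨hmem, hdis⟩ := ha
  have h1 : ∀ i, ∃ (f : Bool) (c : F4) (T : Finset Pq) (s : 𝓞 K), s ≠ 0 ∧
      a i = phE f c T * s ^ 2 := fun i => exists_sfE (a i) (hne _ ((hmem _).2 ⟨i, rfl⟩))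
  choose fk ck T s hs hT using h1
  obtain ⟨B, hB⟩ : ∃ B : Finset Pq, B = univ.biUnion T := ⟨_, rfl⟩
  have hTB : ∀ i, T i ⊆ B := fun i => by
    rw [hB]
    exact subset_biUnion_of_mem T (mem_univ i)
  have hsK : ∀ i, ((s i : 𝓞 K) : K) ≠ 0 := fun i => by exact_mod_cast hs i
  have hTK : ∀ i, ((a i : 𝓞 K) : K) = ((phE (fk i) (ck i) (T i) : 𝓞 K) : K) * ((s i : 𝓞 K) : K) ^ 2 := by
    intro i
    exact_mod_cast congrArg (fun z : 𝓞 K => (z : K)) (hT i)
  have hlab : LabG fk ck T := by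
    refine ⟨?_, ?_, ?_⟩
    · intro i i' e1 e2 e3
      by_contra hii
      apply hdis i i' hii
      refine ⟨((phE (fk i) (ck i) (T i) * (s i * s i') : 𝓞 K) : K), ?_⟩
      have h2 : (phE (fk i) (ck i) (T i) * (s i * s i')) ^ 2 = a i * a i' := by
        conv_rhs => rw [hT i, hT i', ← e1, ← e2, ← e3]
        ring
      exact_mod_cast congrArg (fun z : 𝓞 K => (z : K)) h2
    · intro i
      obtain ⟨x, hx, z, hz, h2⟩ := hneg (a i) ((hmem _).2 ⟨i, rfl⟩)
      obtain ⟨l, rfl⟩ := (hmem x).1 hx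
      have h3 : ((phE (fk i) (ck i + 1) (T i) : 𝓞 K) : K) *
          (((s i : 𝓞 K) : K) / (((s l : 𝓞 K) : K) * z)) ^ 2 =
          ((phE (fk l) (ck l) (T l) : 𝓞 K) : K) := by
        have e0 : ((phE (fk i) (ck i + 1) (T i) : 𝓞 K) : K) =
            -((phE (fk i) (ck i) (T i) : 𝓞 K) : K) := by
          rw [phE_add_one]
          push_cast
          ring
        rw [hTK i, hTK l] at h2
        rw [e0, div_pow, ← mul_div_assoc, div_eq_iff (pow_ne_zero 2 (mul_ne_zero (hsK l) hz))]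
        linear_combination h2
      obtain ⟨h4, h5, h6⟩ := phE_uniq h3
      exact ⟨l, h4.symm, h5.symm, h6.symm⟩
    · intro i j
      obtain ⟨x, hx, z, hz, h2⟩ := hmul (a i) ((hmem _).2 ⟨i, rfl⟩) (a j) ((hmem _).2 ⟨j, rfl⟩)
      obtain ⟨l, rfl⟩ := (hmem x).1 hx
      obtain ⟨t, ht, h7⟩ := phE_mul (fk i) (fk j) (ck i) (ck j) (T i) (T j)
      have h7' : ((phE (fk i) (ck i) (T i) : 𝓞 K) : K) * ((phE (fk j) (ck j) (T j) : 𝓞 K) : K) =
          ((phE (xor (fk i) (fk j)) (ck i + ck j) (symmDiff (T i) (T j)) : 𝓞 K) : K) *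
            ((t : 𝓞 K) : K) ^ 2 := by
        exact_mod_cast congrArg (fun z : 𝓞 K => (z : K)) h7
      have h3 : ((phE (xor (fk i) (fk j)) (ck i + ck j) (symmDiff (T i) (T j)) : 𝓞 K) : K) *
          (((t : 𝓞 K) : K) * ((s i : 𝓞 K) : K) * ((s j : 𝓞 K) : K) /
            (((s l : 𝓞 K) : K) * z)) ^ 2 = ((phE (fk l) (ck l) (T l) : 𝓞 K) : K) := by
        rw [hTK i, hTK j, hTK l] at h2
        rw [div_pow, ← mul_div_assoc, div_eq_iff (pow_ne_zero 2 (mul_ne_zero (hsK l) hz))]
        linear_combination h2 - ((s i : 𝓞 K) : K) ^ 2 * ((s j : 𝓞 K) : K) ^ 2 * h7'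
      obtain ⟨h4, h5, h6⟩ := phE_uniq h3
      exact ⟨l, h4.symm, h5.symm, h6.symm⟩
  obtain ⟨hb1, hb2⟩ := hlab.bounds
  rw [cinf_form, ← hN]
  refine density_avg (PiP fk ck false - ε / 2) (PiP fk ck true - ε / 2) (Da.cinf ^ N - ε)
    (by linarith) (by linarith)
    (fun c S => ∀ i, GdE (xor false (fk i)) (c + ck i) (symmDiff S (T i)))
    (fun c S => ∀ i, GdE (xor true (fk i)) (c + ck i) (symmDiff S (T i)))
    (fun c d η hη => ?_) (fun c d η hη => ?_) Pr (fun j c S h => ?_) (fun j c S h => ?_)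
  · obtain ⟨X₀, h0⟩ := fam_P hP hN0 hlab B hTB false (κ₀ := PiP fk ck false - ε / 2)
      (by linarith) c d η hη
    refine ⟨X₀, fun X hX => (h0 X hX).trans (le_of_eq ?_)⟩
    congr 2
  · obtain ⟨X₀, h0⟩ := fam_P hP hN0 hlab B hTB true (κ₀ := PiP fk ck true - ε / 2)
      (by linarith) c d η hη
    refine ⟨X₀, fun X hX => (h0 X hX).trans (le_of_eq ?_)⟩
    congr 2
  · have hsq : Squarefree (wO ^ j * dlc c S) :=
      squarefree_unit_mul (isUnit_wO.pow j) (dlc_squarefree c S)
    refine hPr _ hsq fun b hb => ?_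
    obtain ⟨i, rfl⟩ := (hmem b).1 hb
    obtain ⟨t, h3, h4⟩ := phE_mul false (fk i) c (ck i) S (T i)
    refine ⟨xor false (fk i), c + ck i, symmDiff S (T i), t * s i * wO ^ (2 * j),
      mul_ne_zero (mul_ne_zero h3 (hs i)) (wO_pow_ne _), ?_, h i⟩
    have e : phE false c S = dlc c S := by
      unfold phE
      simp
    rw [hT i, wO_pow_sq j, ← e, mul_pow, mul_pow]
    linear_combination (s i) ^ 2 * (wO ^ (2 * j)) ^ 2 * h4
  · have hsq : Squarefree (2 * (wO ^ j * dlc c S)) := by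
      have h5 := phE_squarefree true c S
      have e6 : 2 * (wO ^ j * dlc c S) = wO ^ j * phE true c S := by
        unfold phE
        simp
        ring
      rw [e6]
      exact squarefree_unit_mul (isUnit_wO.pow j) h5
    refine hPr _ hsq fun b hb => ?_
    obtain ⟨i, rfl⟩ := (hmem b).1 hb
    obtain ⟨t, h3, h4⟩ := phE_mul true (fk i) c (ck i) S (T i)
    refine ⟨xor true (fk i), c + ck i, symmDiff S (T i), t * s i * wO ^ (2 * j),
      mul_ne_zero (mul_ne_zero h3 (hs i)) (wO_pow_ne _), ?_, h i⟩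
    have e : phE true c S = 2 * dlc c S := by
      unfold phE
      simp
    rw [hT i, wO_pow_sq j, mul_pow, mul_pow]
    rw [e] at h4
    linear_combination (s i) ^ 2 * (wO ^ (2 * j)) ^ 2 * h4

end

end Pool.Agent.Lib.MP_1a91b9_ntN.G
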