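import Pool.Agent.Lib.MP_1a91b9_ntN.G.RAvg

/-!
# Multiquadratic extensions of `ℚ(√-3)`, part R: the density of the squarefree `d` for which all the
twists `a d` are good, if the set of the `a` is a group containing `-1` modulo squares
-/

set_option autoImplicit false

namespace Pool.Agent.Lib.MP_1a91b9_ntN.G

open NumberField Finset Filter Topology Pool.Agent.Lib.MP_1a91b9_ntT Pool.Agent.Lib.MP_1a91b9_ntH
  Pool.Agent.Lib.MP_1a91b9_ntH2 Pool.Agent.Lib.MP_1a91b9_ntE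
open Pool.Agent.Lib.MP_1a91b9_ntP (GdE DSJ2)

noncomputable section

/-! ### numbers -/

theorem cinf_le : Da.cinf ≤ 2 / 3 := by
  have hm : Multipliable fun i : ℕ => (1 + (1 / 2 : ℝ) ^ (2 * i + 1)) := by
    refine Real.multipliable_one_add_of_summable ?_
    have h1 : Summable fun i : ℕ => (1 / 2 : ℝ) * (1 / 4) ^ i :=
      (summable_geometric_of_lt_one (by norm_num) (by norm_num)).mul_left _
    refine h1.congr fun i => ?_
    rw [pow_succ, pow_mul]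
    norm_num
    ring
  have h1 := hm.hasProd.tendsto_prod_nat
  have hP1 : ∀ n, 3 / 2 ≤ ∏ i ∈ range (n + 1), (1 + (1 / 2 : ℝ) ^ (2 * i + 1)) := fun n => by
    rw [prod_range_succ']
    have h2 : (1 : ℝ) ≤ ∏ i ∈ range n, (1 + (1 / 2 : ℝ) ^ (2 * (i + 1) + 1)) := by
      refine le_trans (by rw [prod_const_one]) (prod_le_prod (f := fun _ => (1 : ℝ))
        (fun _ _ => zero_le_one) fun i _ => ?_)
      have : (0 : ℝ) ≤ (1 / 2) ^ (2 * (i + 1) + 1) := by positivity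
      linarith
    have h3 : (1 + (1 / 2 : ℝ) ^ (2 * 0 + 1)) = 3 / 2 := by norm_num
    rw [h3]
    linarith
  obtain ⟨P, hP⟩ : ∃ P : ℝ, P = ∏' i : ℕ, (1 + (1 / 2 : ℝ) ^ (2 * i + 1)) := ⟨_, rfl⟩
  rw [← hP] at h1
  have hP0 : 3 / 2 ≤ P := ge_of_tendsto' ((tendsto_add_atTop_iff_nat 1).2 h1) hP1
  have h3 : HasProd (fun i : ℕ => (1 + (1 / 2 : ℝ) ^ (2 * i + 1))⁻¹) P⁻¹ := by
    have h4 := hm.hasProd
    rw [← hP] at h4
    have h5 : Tendsto (fun s : Finset ℕ => (∏ i ∈ s, (1 + (1 / 2 : ℝ) ^ (2 * i + 1)))⁻¹)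
        atTop (𝓝 P⁻¹) := Tendsto.inv₀ h4 (by linarith)
    have h6 : (fun s : Finset ℕ => (∏ i ∈ s, (1 + (1 / 2 : ℝ) ^ (2 * i + 1)))⁻¹) =
        fun s => ∏ i ∈ s, (1 + (1 / 2 : ℝ) ^ (2 * i + 1))⁻¹ := by
      funext s
      rw [prod_inv_distrib]
    rw [h6] at h5
    exact h5
  rw [Da.cinf, h3.tprod_eq, inv_le_comm₀ (by linarith) (by norm_num)]
  linarith

theorem cinf_pos : 0 < Da.cinf := by
  have h := cinf_gt
  rw [cinf_form] at h
  linarith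

theorem cinf_sq_le : Da.cinf ^ 2 ≤ 1 / 2 := by
  have h1 := pow_le_pow_left₀ cinf_pos.le cinf_le 2
  norm_num at h1
  linarith

set_option maxHeartbeats 400000 in
theorem two_bound {x : ℝ} (hx0 : 0 < x) (hx1 : x ≤ 1) (hx : x ^ 2 ≤ 1 / 2) {m n : ℕ} (h : m ≤ n) :
    x ^ (2 * (n + m)) ≤ x ^ (n + m) * (1 / 2) ^ m ∧
      2 * x ^ (2 * (n + m)) ≤ x ^ (n + m) * (1 / 2) ^ m + x ^ (n + m) * (1 / 2) ^ n := by
  have hp : 0 < x ^ (n + m) := pow_pos hx0 _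
  have e : x ^ (2 * (n + m)) = x ^ (n + m) * x ^ (n + m) := by rw [two_mul, pow_add]
  have h1 : x ^ (n + m) ≤ (1 / 2) ^ m := by
    calc x ^ (n + m) ≤ x ^ (2 * m) := pow_le_pow_of_le_one hx0.le hx1 (by omega)
      _ = (x ^ 2) ^ m := by rw [pow_mul]
      _ ≤ (1 / 2) ^ m := pow_le_pow_left₀ (sq_nonneg x) hx m
  have h2 : 2 * x ^ (n + m) ≤ (1 / 2 : ℝ) ^ m + (1 / 2) ^ n := by
    have h3 : (x ^ (n + m)) ^ 2 ≤ (1 / 2) ^ m * (1 / 2) ^ n := by
      rw [← pow_add, ← pow_mul, mul_comm, pow_mul, add_comm m n]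
      exact pow_le_pow_left₀ (sq_nonneg x) hx _
    have h4 : (2 * x ^ (n + m)) ^ 2 ≤ ((1 / 2 : ℝ) ^ m + (1 / 2) ^ n) ^ 2 := by
      have h5 := sq_nonneg ((1 / 2 : ℝ) ^ m - (1 / 2) ^ n)
      have e1 : (2 * x ^ (n + m)) ^ 2 = 4 * (x ^ (n + m)) ^ 2 := by ring
      have e2 : ((1 / 2 : ℝ) ^ m + (1 / 2) ^ n) ^ 2 =
          ((1 / 2 : ℝ) ^ m - (1 / 2) ^ n) ^ 2 + 4 * ((1 / 2) ^ m * (1 / 2) ^ n) := by ring
      rw [e1, e2]
      linarith
    exact le_of_sq_le_sq h4 (by positivity)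
  refine ⟨?_, ?_⟩
  · rw [e]
    exact mul_le_mul_of_nonneg_left h1 hp.le
  · rw [e]
    have h6 := mul_le_mul_of_nonneg_left h2 hp.le
    linarith

theorem prod_half {ι : Type*} [Fintype ι] (P : ι → Bool) (x : ℝ) :
    ∏ i, (if P i = true then x / 2 else x) =
      x ^ Fintype.card ι * (1 / 2) ^ (univ.filter fun i => P i = true).card := by
  have h1 : ∀ i, (if P i = true then x / 2 else x) = x * (if P i = true then 1 / 2 else 1) := by
    intro i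
    split_ifs
    · ring
    · ring
  rw [prod_congr rfl fun i _ => h1 i, prod_mul_distrib, prod_const, card_univ, prod_ite, prod_const,
    prod_const_one, mul_one]

end

end Pool.Agent.Lib.MP_1a91b9_ntN.G
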