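import Pool.Agent.Lib.MP_1a91b9_ntN.G.RTr

/-!
# Multiquadratic extensions of `ℚ(√-3)`, part R: the squarefree part of a product
-/

set_option autoImplicit false

namespace Pool.Agent.Lib.MP_1a91b9_ntN.G

open NumberField Finset Pool.Agent.Lib.MP_1a91b9_ntT Pool.Agent.Lib.MP_1a91b9_ntH
  Pool.Agent.Lib.MP_1a91b9_ntH2 Pool.Agent.Lib.MP_1a91b9_ntE
open Pool.Agent.Lib.MP_1a91b9_ntP (GdE DSJ2)

noncomputable section

theorem wO_pow_sq (j : ℕ) : wO ^ j = (wO ^ (2 * j)) ^ 2 := by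
  have h3 : wO ^ 3 = 1 := by linear_combination (wO - 1) * wO_quad
  rw [← pow_mul, show 2 * j * 2 = j + 3 * j by ring, pow_add, pow_mul wO 3 j, h3, one_pow, mul_one]

theorem wO_pow_ne (j : ℕ) : wO ^ j ≠ 0 := (isUnit_wO.pow j).ne_zero

/-- The squarefree part of an element. -/
theorem exists_sfE (a : 𝓞 K) : a ≠ 0 →
    ∃ (f : Bool) (c : F4) (T : Finset Pq) (s : 𝓞 K), s ≠ 0 ∧ a = phE f c T * s ^ 2 := by
  suffices h : a ≠ 0 → ∃ δ s : 𝓞 K, Squarefree δ ∧ s ≠ 0 ∧ a = δ * s ^ 2 by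
    intro ha
    obtain ⟨δ, s, h1, h2, h3⟩ := h ha
    obtain ⟨⟨b, j, c⟩, x, ⟨h4, h5, h6⟩, rfl⟩ := DensA.exists_ph h1
    obtain ⟨S, rfl⟩ := exists_dlc h4 h5 h6
    refine ⟨b, c, S, wO ^ (2 * (j : ℕ)) * s, mul_ne_zero (wO_pow_ne _) h2, ?_⟩
    rw [h3]
    unfold DensA.ph phE
    dsimp only
    rw [mul_pow, ← wO_pow_sq]
    ring
  refine UniqueFactorizationMonoid.induction_on_prime a (fun h => absurd rfl h)
    (fun x hx _ => ⟨x, 1, hx.squarefree, one_ne_zero, by ring⟩) ?_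
  intro b p hb hp ih hpb
  obtain ⟨δ, s, h1, h2, h3⟩ := ih hb
  by_cases h : p ∣ δ
  · obtain ⟨δ', rfl⟩ := h
    refine ⟨δ', p * s, h1.squarefree_of_dvd (Dvd.intro_left p rfl), mul_ne_zero hp.ne_zero h2, ?_⟩
    rw [h3]
    ring
  · refine ⟨p * δ, s, ?_, h2, ?_⟩
    · rw [squarefree_mul_iff]
      exact ⟨(hp.irreducible.isRelPrime_iff_not_dvd).2 h, hp.squarefree, h1⟩
    · rw [h3]
      ring

theorem DD_unionE {S T : Finset Pq} (h : Disjoint S T) : DD (S ∪ T) = DD S * DD T := by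
  unfold DD
  exact prod_union h

theorem DD_neE (S : Finset Pq) : DD S ≠ 0 := (DD_inP S).ne_zero

theorem DD_mul (S T : Finset Pq) : DD S * DD T = DD (symmDiff S T) * DD (S ∩ T) ^ 2 := by
  have h1 : DD S = DD (S \ T) * DD (S ∩ T) := by
    rw [← DD_unionE (disjoint_sdiff_inter S T), sdiff_union_inter]
  have h2 : DD T = DD (T \ S) * DD (S ∩ T) := by
    rw [inter_comm, ← DD_unionE (disjoint_sdiff_inter T S), sdiff_union_inter]
  have h3 : DD (symmDiff S T) = DD (S \ T) * DD (T \ S) := by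
    rw [← DD_unionE (disjoint_sdiff_sdiff), symmDiff_def]
    rfl
  rw [h1, h2, h3]
  ring

theorem A_symmDiff (S T : Finset Pq) : qd.A (symmDiff S T) = qd.A S + qd.A T := by
  have h1 : qd.A S = qd.A (S \ T) + qd.A (S ∩ T) := by
    rw [← A_union (disjoint_sdiff_inter S T), sdiff_union_inter]
  have h2 : qd.A T = qd.A (T \ S) + qd.A (S ∩ T) := by
    rw [inter_comm, ← A_union (disjoint_sdiff_inter T S), sdiff_union_inter]
  have h3 : qd.A (symmDiff S T) = qd.A (S \ T) + qd.A (T \ S) := by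
    rw [← A_union (disjoint_sdiff_sdiff), symmDiff_def]
    rfl
  have key : ∀ x y z : F4, x + y = x + z + (y + z) := by decide
  rw [h1, h2, h3]
  exact key _ _ _

/-- The factor `1` or `√-3`. -/
def kk1 (x : F4) : 𝓞 K := if x.b = 0 then 1 else s3

/-- The factor `1` or `-1`. -/
def kk2 (x : F4) : 𝓞 K := if x.a = 0 then 1 else -1

theorem dlc_kk (c : F4) (S : Finset Pq) : dlc c S = kk1 (qd.A S + c) * kk2 (qd.A S + c) * DD S := rfl

theorem s3_ne : (s3 : 𝓞 K) ≠ 0 := prime_s3.ne_zero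

theorem kk1_mul (x y : F4) : ∃ t : 𝓞 K, t ≠ 0 ∧ kk1 x * kk1 y = kk1 (x + y) * t ^ 2 := by
  have key : ∀ x y : F4, (x.b = 0 ∧ y.b = 0 ∧ (x + y).b = 0) ∨ (x.b = 0 ∧ y.b ≠ 0 ∧ (x + y).b ≠ 0) ∨
      (x.b ≠ 0 ∧ y.b = 0 ∧ (x + y).b ≠ 0) ∨ (x.b ≠ 0 ∧ y.b ≠ 0 ∧ (x + y).b = 0) := by decide
  rcases key x y with ⟨h1, h2, h3⟩ | ⟨h1, h2, h3⟩ | ⟨h1, h2, h3⟩ | ⟨h1, h2, h3⟩
  · exact ⟨1, one_ne_zero, by rw [kk1, kk1, kk1, if_pos h1, if_pos h2, if_pos h3]; ring⟩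
  · exact ⟨1, one_ne_zero, by rw [kk1, kk1, kk1, if_pos h1, if_neg h2, if_neg h3]; ring⟩
  · exact ⟨1, one_ne_zero, by rw [kk1, kk1, kk1, if_neg h1, if_pos h2, if_neg h3]; ring⟩
  · exact ⟨s3, s3_ne, by rw [kk1, kk1, kk1, if_neg h1, if_neg h2, if_pos h3]; ring⟩

theorem kk2_mul (x y : F4) : kk2 x * kk2 y = kk2 (x + y) := by
  have key : ∀ x y : F4, (x.a = 0 ∧ y.a = 0 ∧ (x + y).a = 0) ∨ (x.a = 0 ∧ y.a ≠ 0 ∧ (x + y).a ≠ 0) ∨
      (x.a ≠ 0 ∧ y.a = 0 ∧ (x + y).a ≠ 0) ∨ (x.a ≠ 0 ∧ y.a ≠ 0 ∧ (x + y).a = 0) := by decide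
  rcases key x y with ⟨h1, h2, h3⟩ | ⟨h1, h2, h3⟩ | ⟨h1, h2, h3⟩ | ⟨h1, h2, h3⟩
  · rw [kk2, kk2, kk2, if_pos h1, if_pos h2, if_pos h3]; ring
  · rw [kk2, kk2, kk2, if_pos h1, if_neg h2, if_neg h3]; ring
  · rw [kk2, kk2, kk2, if_neg h1, if_pos h2, if_neg h3]; ring
  · rw [kk2, kk2, kk2, if_neg h1, if_neg h2, if_pos h3]; ring

/-- The squarefree part of a product. -/
theorem dlc_mul (c c' : F4) (S T : Finset Pq) : ∃ t : 𝓞 K, t ≠ 0 ∧
    dlc c S * dlc c' T = dlc (c + c') (symmDiff S T) * t ^ 2 := by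
  obtain ⟨t, h1, h2⟩ := kk1_mul (qd.A S + c) (qd.A T + c')
  refine ⟨t * DD (S ∩ T), mul_ne_zero h1 (DD_neE _), ?_⟩
  have e : qd.A S + c + (qd.A T + c') = qd.A (symmDiff S T) + (c + c') := by
    rw [A_symmDiff]
    abel
  have h3 := kk2_mul (qd.A S + c) (qd.A T + c')
  rw [e] at h2 h3
  rw [dlc_kk, dlc_kk, dlc_kk]
  calc kk1 (qd.A S + c) * kk2 (qd.A S + c) * DD S * (kk1 (qd.A T + c') * kk2 (qd.A T + c') * DD T)
      = (kk1 (qd.A S + c) * kk1 (qd.A T + c')) * (kk2 (qd.A S + c) * kk2 (qd.A T + c')) *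
          (DD S * DD T) := by ring
    _ = _ := by
      rw [h2, h3, DD_mul]
      ring

/-- The squarefree part of a product. -/
theorem phE_mul (f f' : Bool) (c c' : F4) (S T : Finset Pq) : ∃ t : 𝓞 K, t ≠ 0 ∧
    phE f c S * phE f' c' T = phE (xor f f') (c + c') (symmDiff S T) * t ^ 2 := by
  obtain ⟨t, h1, h2⟩ := dlc_mul c c' S T
  have h20 : (2 : 𝓞 K) ≠ 0 := two_ne_zero
  unfold phE
  cases f <;> cases f'
  · exact ⟨t, h1, by simp; exact h2⟩
  · exact ⟨t, h1, by simp; linear_combination 2 * h2⟩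
  · exact ⟨t, h1, by simp; linear_combination 2 * h2⟩
  · exact ⟨2 * t, mul_ne_zero h20 h1, by simp; linear_combination 4 * h2⟩

theorem phE_ne (f : Bool) (c : F4) (S : Finset Pq) : phE f c S ≠ 0 := by
  unfold phE
  split_ifs
  · exact mul_ne_zero two_ne_zero (dlc_ne_zero c S)
  · exact mul_ne_zero one_ne_zero (dlc_ne_zero c S)

theorem symm_unionE {B S B' T : Finset Pq} (hT : T ⊆ B) (hB : B' ⊆ B) (hS : Disjoint S B) :
    symmDiff (B' ∪ S) T = S ∪ symmDiff B' T := by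
  ext q
  simp only [mem_symmDiff, mem_union]
  have h1 : q ∈ S → q ∉ B := fun h => disjoint_left.1 hS h
  have h2 : q ∈ T → q ∈ B := fun h => hT h
  have h3 : q ∈ B' → q ∈ B := fun h => hB h
  tauto

theorem symmDiff_cancelE {S A B : Finset Pq} (h : symmDiff S A = symmDiff S B) : A = B := by
  have h1 := congrArg (fun X => symmDiff S X) h
  simpa only [symmDiff_symmDiff_cancel_left] using h1

/-- `-1` is not a square. -/
theorem neg_one_ne (y : 𝓞 K) : y ^ 2 ≠ -1 := by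
  intro h
  have h1 : red y = 1 := by
    have h2 : red (y ^ 2) = 1 := by
      have h3 : (2 : 𝓞 K) ∣ (y ^ 2 - 1) := ⟨-1, by rw [h]; ring⟩
      rw [two_dvd_iff, map_sub, map_one, sub_eq_zero] at h3
      exact h3
    rw [map_pow] at h2
    have key : ∀ x : F4, x ^ 2 = 1 → x = 1 := by decide
    exact key _ h2
  have h4 : (2 : 𝓞 K) ∣ y - 1 := by
    rw [two_dvd_iff, map_sub, map_one, h1, sub_self]
  obtain ⟨v, hv⟩ := h4
  have h5 : (2 : 𝓞 K) * (1 + 2 * (v + v ^ 2)) = 0 := by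
    have e : y = 1 + 2 * v := by linear_combination hv
    rw [e] at h
    linear_combination h
  have h6 : (1 : 𝓞 K) + 2 * (v + v ^ 2) = 0 := (mul_eq_zero.1 h5).resolve_left two_ne_zero
  have h7 : IsUnit (2 : 𝓞 K) := isUnit_of_dvd_one ⟨-(v + v ^ 2), by linear_combination h6⟩
  exact DensA.prime_two.not_isUnit h7

theorem dlc_add_one (c : F4) (T : Finset Pq) : dlc (c + 1) T = -dlc c T := by
  have key : ∀ x c : F4, (x + (c + 1)).b = (x + c).b ∧
      ((x + (c + 1)).a = 0 ↔ (x + c).a ≠ 0) := by decide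
  obtain ⟨h1, h2⟩ := key (qd.A T) c
  rw [dlc_kk, dlc_kk, kk1, kk1, kk2, kk2, h1]
  by_cases h : (qd.A T + c).a = 0
  · rw [if_pos h, if_neg (fun h3 => (h2.1 h3) h)]
    ring
  · rw [if_neg h, if_pos (h2.2 h)]
    ring

theorem phE_add_one (f : Bool) (c : F4) (T : Finset Pq) : phE f (c + 1) T = -phE f c T := by
  unfold phE
  rw [dlc_add_one]
  ring

theorem phE_squarefree (f : Bool) (c : F4) (T : Finset Pq) : Squarefree (phE f c T) := by
  have h5 := DensA.ph_squarefree (i := (f, ⟨0, by norm_num⟩, c)) (x := dlc c T)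
    ⟨dlc_squarefree c T, dlc_two c T, cls_dlc c T⟩
  have e5 : DensA.ph (f, ⟨0, by norm_num⟩, c) (dlc c T) = phE f c T := by
    unfold DensA.ph phE
    simp
  rwa [e5] at h5

/-- The only square among the squarefree elements. -/
theorem phE_sq {f : Bool} {c : F4} {T : Finset Pq} {y : K} (h : y ^ 2 = ((phE f c T : 𝓞 K) : K)) :
    f = false ∧ c = 0 ∧ T = ∅ := by
  have hint : IsIntegral ℤ y := by
    have h1 : IsIntegral ℤ (y ^ 2) := by
      rw [h]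
      exact RingOfIntegers.isIntegral_coe _
    exact IsIntegral.of_pow (by norm_num) h1
  obtain ⟨z, rfl⟩ : ∃ z : 𝓞 K, (z : K) = y := ⟨⟨y, hint⟩, rfl⟩
  have h1 : z ^ 2 = phE f c T := by exact_mod_cast h
  have hz : IsUnit z := (phE_squarefree f c T) z ⟨1, by rw [← h1]; ring⟩
  have hu : IsUnit (phE f c T) := by
    rw [← h1]
    exact hz.pow 2
  have hf : f = false := by
    cases f
    · rfl
    · exfalso
      unfold phE at hu
      simp only [if_true] at hu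
      exact DensA.prime_two.not_isUnit (isUnit_of_mul_isUnit_left hu)
  subst hf
  have e : phE false c T = dlc c T := by
    unfold phE
    simp
  rw [e] at h1 hu
  have hT : T = ∅ := by
    rw [Finset.eq_empty_iff_forall_notMem]
    intro q hq
    exact q.prime.not_isUnit (isUnit_of_dvd_unit (dvd_dlc.2 hq) hu)
  subst hT
  have hA : qd.A ∅ = 0 := by
    unfold Dat.A
    exact sum_empty
  have hb : c.b = 0 := by
    by_contra hb
    have h2 : s3 ∣ dlc c ∅ := s3_dvd_dlc.2 (by rw [hA, zero_add]; exact hb)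
    exact prime_s3.not_isUnit (isUnit_of_dvd_unit h2 hu)
  have ha : c.a = 0 := by
    by_contra ha
    apply neg_one_ne z
    rw [h1, dlc_kk, hA, zero_add, kk1, kk2, if_pos hb, if_neg ha]
    unfold DD
    rw [prod_empty]
    ring
  refine ⟨rfl, ?_, rfl⟩
  obtain ⟨a, b⟩ := c
  dsimp only at ha hb
  rw [ha, hb]
  rfl

/-- The squarefree part is unique. -/
theorem phE_uniq {f f' : Bool} {c c' : F4} {T T' : Finset Pq} {x : K}
    (h : ((phE f c T : 𝓞 K) : K) * x ^ 2 = ((phE f' c' T' : 𝓞 K) : K)) :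
    f = f' ∧ c = c' ∧ T = T' := by
  obtain ⟨t, ht, h1⟩ := phE_mul f f' c c' T T'
  have ht0 : ((t : 𝓞 K) : K) ≠ 0 := by exact_mod_cast ht
  have h2 : ((phE f c T : 𝓞 K) : K) * ((phE f' c' T' : 𝓞 K) : K) =
      ((phE (xor f f') (c + c') (symmDiff T T') : 𝓞 K) : K) * ((t : 𝓞 K) : K) ^ 2 := by
    exact_mod_cast congrArg (fun z : 𝓞 K => (z : K)) h1
  have h3 : (((phE f c T : 𝓞 K) : K) * x / ((t : 𝓞 K) : K)) ^ 2 =
      ((phE (xor f f') (c + c') (symmDiff T T') : 𝓞 K) : K) := by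
    rw [div_pow, div_eq_iff (pow_ne_zero 2 ht0), ← h2, ← h]
    ring
  obtain ⟨h4, h5, h6⟩ := phE_sq h3
  refine ⟨?_, ?_, ?_⟩
  · revert f f'
    intro f f'
    cases f <;> cases f' <;> simp
  · have key : ∀ x y : F4, x + y = 0 → x = y := by decide
    exact key _ _ h5
  · exact symmDiff_eq_bot.1 (by rw [h6]; rfl)

end

end Pool.Agent.Lib.MP_1a91b9_ntN.G
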