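import Pool.Agent.Lib.MP_1a91b9_ntN.G.RDefs

/-!
# Multiquadratic extensions of `ℚ(√-3)`, part R: from the sets of primes outside `B` to all the sets
of primes
-/

set_option autoImplicit false

namespace Pool.Agent.Lib.MP_1a91b9_ntN.G

open NumberField Finset Pool.Agent.Lib.MP_1a91b9_ntT Pool.Agent.Lib.MP_1a91b9_ntH
  Pool.Agent.Lib.MP_1a91b9_ntH2 Pool.Agent.Lib.MP_1a91b9_ntE
open Pool.Agent.Lib.MP_1a91b9_ntP (GdE DSJ2)

noncomputable section

/-- the parts in `B` and the classes of the parts outside `B` -/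
def IBE (B : Finset Pq) (d : F4) : Finset (Finset Pq × F4) := by
  classical
  exact (B.powerset ×ˢ (univ : Finset F4)).filter
    (fun i : Finset Pq × F4 => qd.A i.1 + i.2 = d)

theorem mem_IBE {B : Finset Pq} {d : F4} {i : Finset Pq × F4} :
    i ∈ IBE B d ↔ i.1 ⊆ B ∧ qd.A i.1 + i.2 = d := by
  classical
  rw [IBE, mem_filter, mem_product, mem_powerset]
  constructor
  · rintro ⟨⟨h1, _⟩, h2⟩
    exact ⟨h1, h2⟩
  · rintro ⟨h1, h2⟩
    exact ⟨⟨h1, mem_univ _⟩, h2⟩

theorem A_union {S T : Finset Pq} (h : Disjoint S T) : qd.A (S ∪ T) = qd.A S + qd.A T := by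
  unfold Dat.A
  exact sum_union h

open Classical in
theorem cnt_eqE (B : Finset Pq) (d : F4) (Q : Finset Pq → Prop) (X : ℕ) :
    ((Sx Pq X).filter fun S => qd.A S = d ∧ Q S).card =
      ∑ i ∈ IBE B d, ((Sx Pq (X / nm i.1)).filter fun S =>
        Disjoint S B ∧ qd.A S = i.2 ∧ Q (i.1 ∪ S)).card := by
  rw [card_eq_sum_card_fiberwise (f := fun S : Finset Pq => (S ∩ B, qd.A (S \ B)))
    (t := IBE B d) (fun S hS => ?_)]
  · refine sum_congr rfl fun i hi => ?_
    obtain ⟨hi1, hi2⟩ := mem_IBE.1 hi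
    have hpos : 0 < nm i.1 := one_le_nm i.1
    refine card_bij' (fun S _ => S \ B) (fun U _ => i.1 ∪ U) ?_ ?_ ?_ ?_
    · intro S hS
      simp only [mem_filter, mem_Sx] at hS ⊢
      obtain ⟨⟨h1, h2, h3⟩, h4⟩ := hS
      have h5 : S ∩ B = i.1 := congrArg Prod.fst h4
      have h6 : qd.A (S \ B) = i.2 := congrArg Prod.snd h4
      have h7 : i.1 ∪ S \ B = S := by
        rw [← h5, union_comm, sdiff_union_inter]
      have h8 : Disjoint i.1 (S \ B) := disjoint_of_subset_left hi1 disjoint_sdiff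
      refine ⟨?_, sdiff_disjoint, h6, ?_⟩
      · rw [Nat.le_div_iff_mul_le hpos, mul_comm, ← nm_union h8, h7]
        exact h1
      · rw [h7]
        exact h3
    · intro U hU
      simp only [mem_filter, mem_Sx] at hU ⊢
      obtain ⟨h1, h2, h3, h4⟩ := hU
      have h8 : Disjoint i.1 U := disjoint_of_subset_left hi1 h2.symm
      have e1 : (i.1 ∪ U) ∩ B = i.1 := by
        rw [union_inter_distrib_right, inter_eq_left.2 hi1, disjoint_iff_inter_eq_empty.1 h2,
          union_empty]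
      have e2 : (i.1 ∪ U) \ B = U := by
        rw [union_sdiff_distrib, sdiff_eq_empty_iff_subset.2 hi1, empty_union,
          sdiff_eq_self_of_disjoint h2]
      refine ⟨⟨?_, ?_, h4⟩, ?_⟩
      · rw [Nat.le_div_iff_mul_le hpos, mul_comm, ← nm_union h8] at h1
        exact h1
      · rw [A_union h8, h3]
        exact hi2
      · rw [e1, e2, h3]
    · intro S hS
      simp only [mem_filter, mem_Sx] at hS
      have h5 : S ∩ B = i.1 := congrArg Prod.fst hS.2
      show i.1 ∪ S \ B = S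
      rw [← h5, union_comm, sdiff_union_inter]
    · intro U hU
      simp only [mem_filter, mem_Sx] at hU
      show (i.1 ∪ U) \ B = U
      rw [union_sdiff_distrib, sdiff_eq_empty_iff_subset.2 hi1, empty_union,
        sdiff_eq_self_of_disjoint hU.2.1]
  · rw [mem_coe, mem_filter] at hS
    rw [mem_coe, mem_IBE]
    refine ⟨inter_subset_right, ?_⟩
    show qd.A (S ∩ B) + qd.A (S \ B) = d
    rw [← hS.2.1, ← A_union (disjoint_of_subset_left inter_subset_right disjoint_sdiff),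
      union_comm, sdiff_union_inter]

open Classical in
/-- **From the sets of primes outside `B` to all the sets of primes.** -/
theorem DS_of_DSE (B : Finset Pq) (d : F4) {κ₀ : ℝ} {Q : Finset Pq → Prop}
    (h : ∀ B' : Finset Pq, B' ⊆ B → ∀ d' : F4, DSE B d' κ₀ fun S => Q (B' ∪ S))
    (ε : ℝ) (hε : 0 < ε) : ∃ X₀ : ℕ, ∀ X : ℕ, X₀ ≤ X →
      κ₀ * (((Sx Pq X).filter fun S => qd.A S = d).card : ℝ) - ε * X ≤
        (((Sx Pq X).filter fun S => qd.A S = d ∧ Q S).card : ℝ) := by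
  obtain ⟨n, hn⟩ : ∃ n : ℝ, n = ((IBE B d).card : ℝ) + 1 := ⟨_, rfl⟩
  have hn0 : 0 < n := by
    rw [hn]
    positivity
  have h' : ∀ i : Finset Pq × F4, ∃ X₀ : ℕ, i ∈ IBE B d → ∀ X : ℕ, X₀ ≤ X →
      κ₀ * (((Sx Pq X).filter fun S => Disjoint S B ∧ qd.A S = i.2).card : ℝ) -
        ε / n * X ≤ (((Sx Pq X).filter fun S => Disjoint S B ∧ qd.A S = i.2 ∧
          Q (i.1 ∪ S)).card : ℝ) := by
    intro i
    by_cases hi : i ∈ IBE B d
    · obtain ⟨X₀, h0⟩ := h i.1 (mem_IBE.1 hi).1 i.2 (ε / n) (by positivity)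
      exact ⟨X₀, fun _ X hX => h0 X hX⟩
    · exact ⟨0, fun h1 => absurd h1 hi⟩
  choose X₀ hX₀ using h'
  refine ⟨∑ i ∈ IBE B d, X₀ i * nm i.1, fun X hX => ?_⟩
  have hkey : ∀ i ∈ IBE B d,
      κ₀ * (((Sx Pq (X / nm i.1)).filter fun S => Disjoint S B ∧ qd.A S = i.2).card : ℝ) -
        ε / n * X ≤
      (((Sx Pq (X / nm i.1)).filter fun S => Disjoint S B ∧ qd.A S = i.2 ∧
        Q (i.1 ∪ S)).card : ℝ) := by
    intro i hi
    have hpos : 0 < nm i.1 := one_le_nm i.1
    have h1 : X₀ i ≤ X / nm i.1 := by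
      rw [Nat.le_div_iff_mul_le hpos]
      exact (single_le_sum (f := fun i => X₀ i * nm i.1) (fun _ _ => Nat.zero_le _) hi).trans hX
    have h2 := hX₀ i hi _ h1
    have h3 : ((X / nm i.1 : ℕ) : ℝ) ≤ X := by exact_mod_cast Nat.div_le_self _ _
    have h4 : ε / n * ((X / nm i.1 : ℕ) : ℝ) ≤ ε / n * X :=
      mul_le_mul_of_nonneg_left h3 (by positivity)
    linarith
  have hs := sum_le_sum hkey
  rw [sum_sub_distrib, ← mul_sum, sum_const, nsmul_eq_mul] at hs
  have e1 := cnt_eqE B d (fun _ => True) X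
  have e2 := cnt_eqE B d Q X
  simp only [and_true] at e1
  have e1' : (((Sx Pq X).filter fun S => qd.A S = d).card : ℝ) =
      ∑ i ∈ IBE B d, (((Sx Pq (X / nm i.1)).filter fun S => Disjoint S B ∧
        qd.A S = i.2).card : ℝ) := by exact_mod_cast e1
  have e2' : (((Sx Pq X).filter fun S => qd.A S = d ∧ Q S).card : ℝ) =
      ∑ i ∈ IBE B d, (((Sx Pq (X / nm i.1)).filter fun S => Disjoint S B ∧
        qd.A S = i.2 ∧ Q (i.1 ∪ S)).card : ℝ) := by exact_mod_cast e2
  rw [← e1', ← e2'] at hs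
  have hfin : ((IBE B d).card : ℝ) * (ε / n * X) ≤ ε * X := by
    have h5 : ((IBE B d).card : ℝ) ≤ n := by
      rw [hn]
      linarith
    have h6 : ((IBE B d).card : ℝ) * (ε / n * X) ≤ n * (ε / n * X) :=
      mul_le_mul_of_nonneg_right h5 (by positivity)
    have h7 : n * (ε / n * X) = ε * X := by field_simp
    linarith
  linarith

end

end Pool.Agent.Lib.MP_1a91b9_ntN.G
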